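import Pool.Agent.Work.SC081200.VdC
import Pool.Agent.Work.LV.MLoc

/-!
# MP_081200_nt, conductors with a smooth part: factorisations
-/

set_option autoImplicit false

namespace Pool.Agent.Work.SC

open Finset Pool.Agent.Work.LV Pool.Agent.Work.LV.M

/-- `f₁ (f₂ (... G))` -/
def prodG : List ℕ → ℕ → ℕ
  | [], G => G
  | f :: fs, G => f * prodG fs G

lemma prodG_eq (fs : List ℕ) (G : ℕ) : prodG fs G = fs.prod * G := by
  induction fs with
  | nil => simp [prodG]
  | cons f fs ih => rw [prodG, ih, List.prod_cons, mul_assoc]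

lemma coprime_prodG (f : ℕ) (fs : List ℕ) (G : ℕ) (h : ∀ a ∈ fs, f.Coprime a) (hG : f.Coprime G) :
    f.Coprime (prodG fs G) := by
  induction fs with
  | nil => exact hG
  | cons a fs ih =>
    rw [prodG]
    exact Nat.Coprime.mul_right (h a (by simp)) (ih fun b hb => h b (by simp [hb]))

lemma split (H : ℕ → ℕ) : ∀ (fs : List ℕ) (G : ℕ) (_ : NeZero G) (_ : ∀ a ∈ fs, 1 ≤ a)
    (_ : (G :: fs).Pairwise Nat.Coprime) (q : ℕ) (_ : q = prodG fs G) (χ : DirichletCharacter ℂ q),
    LocPrim χ → χ ^ 3 = 1 → ∃ ψ : DirichletCharacter ℂ G, LocPrim ψ ∧ ψ ^ 3 = 1 ∧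
      ∃ P : ℤ → ℂ, Per (fs.map fun f => (f, H f)) P ∧
        ∀ a : ℤ, χ (a : ZMod q) = P a * ψ (a : ZMod G) := by
  intro fs
  induction fs with
  | nil =>
    intro G _ _ _ q hq χ hloc hcub
    subst hq
    exact ⟨χ, hloc, hcub, fun _ => 1, fun a => rfl, fun a => (one_mul _).symm⟩
  | cons f fs ih =>
    intro G hGne hpos hcop q hq χ hloc hcub
    subst hq
    rw [List.pairwise_cons] at hcop
    obtain ⟨h1, h2⟩ := hcop
    rw [List.pairwise_cons] at h2
    obtain ⟨h3, h4⟩ := h2
    have hf : 1 ≤ f := hpos f (by simp)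
    have hfne : NeZero f := ⟨by omega⟩
    have hpne : NeZero (prodG fs G) := ⟨by
      rw [prodG_eq]
      apply mul_ne_zero _ (NeZero.ne G)
      apply List.prod_ne_zero
      intro h0
      have := hpos 0 (by simp [h0])
      omega⟩
    have hab : f.Coprime (prodG fs G) := coprime_prodG f fs G h3 (h1 f (by simp)).symm
    obtain ⟨ψ, hψ1, hψ2, P, hP, hχ⟩ := ih G hGne (fun a ha => hpos a (by simp [ha]))
      (List.pairwise_cons.2 ⟨fun a ha => h1 a (by simp [ha]), h4⟩) (prodG fs G) rfl
      (chiR hab χ) (locPrim_chiR hab χ hloc) (chiR_pow hab χ hcub)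
    refine ⟨ψ, hψ1, hψ2, fun a => chiL hab χ (a : ZMod f) * P a, ?_, ?_⟩
    · rw [List.map_cons]
      refine ⟨fun a => chiL hab χ (a : ZMod f), P, fun a => rfl, ?_, ?_, hP⟩
      · intro a
        have h5 : ((a + (f : ℤ) : ℤ) : ZMod f) = (a : ZMod f) := by
          push_cast
          rw [ZMod.natCast_self, add_zero]
        show chiL hab χ ((a + (f : ℤ) : ℤ) : ZMod f) = chiL hab χ (a : ZMod f)
        rw [h5]
      · intro a
        exact DirichletCharacter.norm_le_one _ _
    · intro a
      have e1 := chiL_mul_chiR hab χ (a : ZMod f) (a : ZMod (prodG fs G))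
      have e2 : (ZMod.chineseRemainder hab).symm ((a : ZMod f), (a : ZMod (prodG fs G))) =
          (a : ZMod (f * prodG fs G)) := by
        rw [RingEquiv.symm_apply_eq, map_intCast]
        rfl
      rw [e2] at e1
      have e3 : χ (a : ZMod (prodG (f :: fs) G)) =
        chiL hab χ (a : ZMod f) * chiR hab χ (a : ZMod (prodG fs G)) := e1.symm
      rw [e3, hχ a]
      ring

/-- greedy packing -/
lemma pack (z g : ℕ) : ∀ l : List ℕ, (∀ a ∈ l, 1 ≤ a ∧ a ≤ z) → (g :: l).Pairwise Nat.Coprime →
    ∃ l' : List ℕ, l'.prod = l.prod ∧ (∀ a ∈ l', 1 ≤ a ∧ a ≤ z) ∧ (g :: l').Pairwise Nat.Coprime ∧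
      l'.IsChain (fun a b => z < a * b) := by
  intro l
  induction l with
  | nil => intro _ h; exact ⟨[], rfl, by simp, h, List.isChain_nil⟩
  | cons a l ih =>
    intro hl hcop
    rw [List.pairwise_cons] at hcop
    obtain ⟨h1, h2⟩ := hcop
    rw [List.pairwise_cons] at h2
    obtain ⟨h3, h4⟩ := h2
    obtain ⟨l', e1, e2, e3, e4⟩ := ih (fun b hb => hl b (by simp [hb]))
      (List.pairwise_cons.2 ⟨fun b hb => h1 b (by simp [hb]), h4⟩)
    have ha := hl a (by simp)
    have hga : g.Coprime a := h1 a (by simp)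
    -- `a` is coprime to all elements of `l'`
    have hal : ∀ b ∈ l', a.Coprime b := by
      intro b hb
      have h5 : a.Coprime l'.prod := by
        rw [e1]
        exact Nat.coprime_list_prod_right_iff.2 h3
      exact h5.coprime_dvd_right (List.dvd_prod hb)
    rw [List.pairwise_cons] at e3
    obtain ⟨e5, e6⟩ := e3
    rcases l' with _ | ⟨b, l''⟩
    · refine ⟨[a], by rw [List.prod_cons, List.prod_cons, e1], ?_, ?_, ?_⟩
      · intro c hc
        rw [List.mem_singleton] at hc
        subst hc; exact ha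
      · rw [List.pairwise_cons]
        refine ⟨?_, by simp⟩
        intro c hc
        rw [List.mem_singleton] at hc
        subst hc; exact hga
      · exact List.isChain_singleton _
    · have hb := e2 b (by simp)
      rw [List.pairwise_cons] at e6
      obtain ⟨e7, e8⟩ := e6
      by_cases hab : a * b ≤ z
      · refine ⟨(a * b) :: l'', ?_, ?_, ?_, ?_⟩
        · rw [List.prod_cons, List.prod_cons, ← e1, List.prod_cons, mul_assoc]
        · intro c hc
          rw [List.mem_cons] at hc
          rcases hc with rfl | hc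
          · exact ⟨Nat.mul_pos ha.1 hb.1, hab⟩
          · exact e2 c (by simp [hc])
        · rw [List.pairwise_cons, List.pairwise_cons]
          refine ⟨?_, ?_, e8⟩
          · intro c hc
            rw [List.mem_cons] at hc
            rcases hc with rfl | hc
            · exact Nat.Coprime.mul_right hga (e5 b (by simp))
            · exact e5 c (by simp [hc])
          · intro c hc
            exact Nat.Coprime.mul_left (hal c (by simp [hc])) (e7 c hc)
        · rcases l'' with _ | ⟨c, l3⟩
          · exact List.isChain_singleton _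
          · rw [List.isChain_cons_cons] at e4 ⊢
            refine ⟨?_, e4.2⟩
            calc z < b * c := e4.1
              _ ≤ a * b * c := by
                  rw [mul_assoc]
                  exact Nat.le_mul_of_pos_left _ ha.1
      · push Not at hab
        refine ⟨a :: b :: l'', ?_, ?_, ?_, ?_⟩
        · rw [List.prod_cons, e1, List.prod_cons]
        · intro c hc
          rw [List.mem_cons] at hc
          rcases hc with rfl | hc
          · exact ha
          · exact e2 c hc
        · rw [List.pairwise_cons, List.pairwise_cons, List.pairwise_cons]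
          refine ⟨?_, hal, e7, e8⟩
          intro c hc
          rw [List.mem_cons] at hc
          rcases hc with rfl | hc
          · exact hga
          · exact e5 c hc
        · rw [List.isChain_cons_cons]
          exact ⟨hab, e4⟩

lemma chain_len (z : ℕ) : ∀ (m : ℕ) (l : List ℕ), (∀ a ∈ l, 1 ≤ a) →
    l.IsChain (fun a b => z < a * b) → 2 * m ≤ l.length → (z + 1) ^ m ≤ l.prod := by
  intro m
  induction m with
  | zero =>
    intro l hl _ _
    rw [pow_zero]
    exact Nat.one_le_iff_ne_zero.2 (List.prod_ne_zero fun h0 => by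
      have := hl 0 h0
      omega)
  | succ m ih =>
    intro l hl hc hlen
    rcases l with _ | ⟨a, _ | ⟨b, l⟩⟩
    · simp at hlen
    · simp at hlen; omega
    · rw [List.isChain_cons_cons] at hc
      obtain ⟨h1, h2⟩ := hc
      have h3 : l.IsChain (fun a b => z < a * b) := by
        rcases l with _ | ⟨c, l⟩
        · exact List.isChain_nil
        · rw [List.isChain_cons_cons] at h2
          exact h2.2
      have h4 := ih l (fun a ha => hl a (by simp [ha])) h3 (by simp at hlen; omega)
      rw [List.prod_cons, List.prod_cons, ← mul_assoc, pow_succ, mul_comm]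
      exact Nat.mul_le_mul h1 h4

/-- enlarging the rough part -/
lemma enlarge (z : ℕ) (y : ℝ) : ∀ (fs : List ℕ) (g : ℕ), (∀ a ∈ fs, 1 ≤ a ∧ a ≤ z) →
    (g :: fs).Pairwise Nat.Coprime → (g : ℝ) < y → y ≤ prodG fs g →
    ∃ (fs' : List ℕ) (G : ℕ), prodG fs' G = prodG fs g ∧ (G :: fs').Pairwise Nat.Coprime ∧
      (∀ a ∈ fs', 1 ≤ a ∧ a ≤ z) ∧ fs'.length ≤ fs.length ∧ y ≤ G ∧ (G : ℝ) < y * z ∧ g ∣ G := by
  intro fs
  induction fs with
  | nil =>
    intro g _ _ h1 h2
    exact absurd (lt_of_lt_of_le h1 h2) (lt_irrefl _)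
  | cons a fs ih =>
    intro g hl hcop hg hy
    rw [List.pairwise_cons] at hcop
    obtain ⟨h1, h2⟩ := hcop
    rw [List.pairwise_cons] at h2
    obtain ⟨h3, h4⟩ := h2
    have ha := hl a (by simp)
    have hcop' : ((g * a) :: fs).Pairwise Nat.Coprime := by
      rw [List.pairwise_cons]
      exact ⟨fun b hb => Nat.Coprime.mul_left (h1 b (by simp [hb])) (h3 b hb), h4⟩
    have hpr : prodG fs (g * a) = prodG (a :: fs) g := by
      rw [prodG_eq, prodG_eq, List.prod_cons]; ring
    by_cases hga : y ≤ ((g * a : ℕ) : ℝ)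
    · refine ⟨fs, g * a, hpr, hcop', fun b hb => hl b (by simp [hb]), by simp, hga, ?_,
        Dvd.intro _ rfl⟩
      push_cast
      have h5 : (0 : ℝ) < a := by exact_mod_cast ha.1
      have h6 : (a : ℝ) ≤ z := by exact_mod_cast ha.2
      have h7 : (0 : ℝ) ≤ g := Nat.cast_nonneg g
      have h8 : 0 < y := by linarith
      calc (g : ℝ) * a < y * a := mul_lt_mul_of_pos_right hg h5
        _ ≤ y * z := mul_le_mul_of_nonneg_left h6 h8.le
    · push Not at hga
      obtain ⟨fs', G, e1, e2, e3, e4, e5, e6, e7⟩ := ih (g * a) (fun b hb => hl b (by simp [hb]))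
        hcop' hga (by rw [hpr]; exact hy)
      exact ⟨fs', G, e1.trans hpr, e2, e3, by simp; omega, e5, e6, (Dvd.intro _ rfl).trans e7⟩

/-- multiplicities in the modulus of a primitive cubic character -/
lemma fact_le {f : ℕ} [NeZero f] (χ : DirichletCharacter ℂ f) (hloc : LocPrim χ) (hcub : χ ^ 3 = 1)
    (p : ℕ) (hp : p.Prime) : (p ≠ 3 → f.factorization p ≤ 1) ∧ f.factorization 3 ≤ 2 := by
  have key : ∀ (p : ℕ) (_ : p.Prime) (q : ℕ) (_ : NeZero q) (v m : ℕ) (_ : q = p ^ v * m)
      (_ : (p ^ v).Coprime m) (χ : DirichletCharacter ℂ q), LocPrim χ → χ ^ 3 = 1 →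
      ∃ ψ : DirichletCharacter ℂ (p ^ v), LocPrim ψ ∧ ψ ^ 3 = 1 := by
    intro p hp q hq v m hqm hc χ hloc hcub
    subst hqm
    have h1 : NeZero (p ^ v) := ⟨pow_ne_zero _ hp.ne_zero⟩
    have h2 : NeZero m := ⟨fun h => NeZero.ne (p ^ v * m) (by rw [h, mul_zero])⟩
    exact ⟨chiL hc χ, locPrim_chiL hc χ hloc, chiL_pow hc χ hcub⟩
  have hf : f ≠ 0 := NeZero.ne f
  have dec : ∀ p : ℕ, p.Prime → ∃ ψ : DirichletCharacter ℂ (p ^ f.factorization p),
      LocPrim ψ ∧ ψ ^ 3 = 1 := by
    intro p hp
    refine key p hp f inferInstance (f.factorization p) (f / p ^ f.factorization p)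
      (Nat.ordProj_mul_ordCompl_eq_self f p).symm ?_ χ hloc hcub
    exact Nat.Coprime.pow_left _ (Nat.coprime_ordCompl hp hf)
  constructor
  · intro hp3
    by_contra hcon
    push Not at hcon
    obtain ⟨ψ, h1, h2⟩ := dec p hp
    exact not_locPrim_of_ne_three hp hp3 hcon ψ h2 h1
  · by_contra hcon
    push Not at hcon
    obtain ⟨ψ, h1, h2⟩ := dec 3 Nat.prime_three
    exact not_locPrim_three hcon ψ h2 h1

/-- the factorisation of the conductor -/
lemma factor {f : ℕ} [NeZero f] (χ : DirichletCharacter ℂ f) (hloc : LocPrim χ) (hcub : χ ^ 3 = 1)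
    (z : ℕ) (hz : 9 ≤ z) : ∃ fs : List ℕ,
      prodG fs (∏ p ∈ f.primeFactors.filter (fun p => z < p), p) = f ∧
      ((∏ p ∈ f.primeFactors.filter (fun p => z < p), p) :: fs).Pairwise Nat.Coprime ∧
      (∀ a ∈ fs, 1 ≤ a ∧ a ≤ z) ∧ ∀ m : ℕ, 2 * m ≤ fs.length → (z + 1) ^ m ≤ f := by
  classical
  have hf : f ≠ 0 := NeZero.ne f
  set g := ∏ p ∈ f.primeFactors.filter (fun p => z < p), p with hg
  set S := f.primeFactors.filter (fun p => ¬ z < p) with hS
  have hSp : ∀ p ∈ S, p.Prime := fun p hp => Nat.prime_of_mem_primeFactors (mem_filter.1 hp).1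
  set l : List ℕ := S.toList.map (fun p => p ^ f.factorization p) with hl
  have hlb : ∀ a ∈ l, 1 ≤ a ∧ a ≤ z := by
    intro a ha
    rw [hl, List.mem_map] at ha
    obtain ⟨p, hp, rfl⟩ := ha
    rw [mem_toList] at hp
    have hpp := hSp p hp
    refine ⟨Nat.one_le_iff_ne_zero.2 (pow_ne_zero _ hpp.ne_zero), ?_⟩
    by_cases hp3 : p = 3
    · subst hp3
      have h1 := (fact_le χ hloc hcub 3 Nat.prime_three).2
      calc 3 ^ f.factorization 3 ≤ 3 ^ 2 := Nat.pow_le_pow_right (by norm_num) h1
        _ ≤ z := by omega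
    · have h1 := (fact_le χ hloc hcub p hpp).1 hp3
      have h2 : p ≤ z := by
        have := (mem_filter.1 hp).2
        omega
      calc p ^ f.factorization p ≤ p ^ 1 := Nat.pow_le_pow_right hpp.pos h1
        _ ≤ z := by rw [pow_one]; exact h2
  have hcop : (g :: l).Pairwise Nat.Coprime := by
    rw [List.pairwise_cons]
    constructor
    · intro a ha
      rw [hl, List.mem_map] at ha
      obtain ⟨p, hp, rfl⟩ := ha
      rw [mem_toList] at hp
      apply Nat.Coprime.pow_right
      rw [hg]
      apply Nat.Coprime.prod_left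
      intro p' hp'
      have h1 := mem_filter.1 hp'
      have h2 := mem_filter.1 hp
      rw [Nat.coprime_primes (Nat.prime_of_mem_primeFactors h1.1) (hSp p hp)]
      intro h
      rw [h] at h1
      exact h2.2 h1.2
    · rw [hl, List.pairwise_map]
      have hnd : S.toList.Nodup := S.nodup_toList
      refine List.Pairwise.imp_of_mem ?_ hnd
      intro p p' hp hp' hne
      rw [mem_toList] at hp hp'
      apply Nat.Coprime.pow
      exact (Nat.coprime_primes (hSp p hp) (hSp p' hp')).2 hne
  have hprod : l.prod * g = f := by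
    have h1 : l.prod = ∏ p ∈ S, p ^ f.factorization p := by
      rw [hl, Finset.prod_map_toList]
    have h2 : g = ∏ p ∈ f.primeFactors.filter (fun p => z < p), p ^ f.factorization p := by
      rw [hg]
      refine prod_congr rfl fun p hp => ?_
      have h3 := mem_filter.1 hp
      have hpp := Nat.prime_of_mem_primeFactors h3.1
      have hp3 : p ≠ 3 := by
        intro h
        rw [h] at h3
        omega
      have h4 := (fact_le χ hloc hcub p hpp).1 hp3
      have h5 : 0 < f.factorization p :=
        hpp.factorization_pos_of_dvd hf (Nat.dvd_of_mem_primeFactors h3.1)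
      have h6 : f.factorization p = 1 := by omega
      rw [h6, pow_one]
    rw [h1, h2, mul_comm, hS, prod_filter_mul_prod_filter_not]
    conv_rhs => rw [← Nat.prod_factorization_pow_eq_self hf]
    rfl
  obtain ⟨fs, e1, e2, e3, e4⟩ := pack z g l hlb hcop
  have hpg : prodG fs g = f := by rw [prodG_eq, e1, hprod]
  refine ⟨fs, hpg, e3, e2, ?_⟩
  intro m hm
  have h1 := chain_len z m fs (fun a ha => (e2 a ha).1) e4 hm
  refine h1.trans ?_
  rw [e1]
  apply Nat.le_of_dvd (Nat.pos_of_ne_zero hf)
  exact Dvd.intro _ hprod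

end Pool.Agent.Work.SC
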