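import Pool.Agent.Work.SC081200.Loc
import Pool.Agent.Work.LV.M
import Pool.Agent.Work.LV.W

/-!
# MP_081200_nt, conductors with a smooth part: moments of differenced characters
-/

set_option autoImplicit false

namespace Pool.Agent.Work.SC

open Finset Polynomial Pool.Agent.Work.LV Pool.Agent.Work.LV.M

/-- loss caused by the shifts which have a common factor with the modulus -/
noncomputable def gam {q : ℕ} (l : List (ZMod q)) : ℝ :=
  open Classical in ∏ p ∈ q.primeFactors, if (∃ s ∈ l, p ∣ s.val) then Real.sqrt p else 1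

lemma one_le_gam {q : ℕ} (l : List (ZMod q)) : 1 ≤ gam l := by
  classical
  unfold gam
  have : ∀ s : Finset ℕ, (∀ p ∈ s, p.Prime) →
      (1 : ℝ) ≤ ∏ p ∈ s, if (∃ s ∈ l, p ∣ s.val) then Real.sqrt p else 1 := by
    intro s
    induction s using Finset.induction_on with
    | empty => intro _; simp
    | insert a s ha ih =>
      intro h
      rw [prod_insert ha]
      have h1 := ih (fun p hp => h p (mem_insert_of_mem hp))
      have h2 : (1 : ℝ) ≤ if (∃ s ∈ l, a ∣ s.val) then Real.sqrt a else 1 := by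
        split_ifs
        · exact Real.one_le_sqrt.2 (by exact_mod_cast (h a (mem_insert_self _ _)).one_le)
        · exact le_rfl
      nlinarith
  exact this _ (fun p hp => Nat.prime_of_mem_primeFactors hp)

lemma DZ_norm {q : ℕ} (l : List (ZMod q)) (φ : ZMod q → ℂ) (h : ∀ x, ‖φ x‖ ≤ 1) (x : ZMod q) :
    ‖DZ l φ x‖ ≤ 1 := by
  induction l generalizing φ with
  | nil => exact h x
  | cons s l ih =>
    apply ih
    intro y
    rw [norm_mul, RCLike.norm_conj]
    calc ‖φ (y + s)‖ * ‖φ y‖ ≤ 1 * 1 := mul_le_mul (h _) (h _) (norm_nonneg _) zero_le_one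
      _ = 1 := one_mul 1

lemma moment_expand2 (r : ℕ) (q : ℕ) [NeZero q] (χ : DirichletCharacter ℂ q) (hχ : χ ^ 3 = 1)
    (l : List (ZMod q)) (B : ℕ) :
    ((∑ x : ZMod q, ‖∑ b ∈ Icc 1 B, DZ l (fun y => χ y) (x + (b : ZMod q))‖ ^ (2 * r) : ℝ) : ℂ) =
      ∑ h ∈ Fintype.piFinset (fun _ : Fin r ⊕ Fin r => Icc 1 B),
        ∑ x : ZMod q, DZ l (fun y => χ (RR (ee r) h y)) x := by
  rw [sum_comm]
  push_cast
  apply sum_congr rfl
  intro x _
  set Φ : ZMod q → ℂ := DZ l (fun y => χ y) with hΦ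
  have h1 : ((‖∑ b ∈ Icc 1 B, Φ (x + (b : ZMod q))‖ : ℝ) : ℂ) ^ (2 * r) =
      ∏ i : Fin r ⊕ Fin r, ∑ b ∈ Icc 1 B,
        DZ l (fun y => χ (y + (b : ZMod q)) ^ ee r i) x := by
    rw [Fintype.prod_sum_type]
    have e1 : ∀ b : ℕ, DZ l (fun y => χ (y + (b : ZMod q)) ^ 1) x = Φ (x + (b : ZMod q)) := by
      intro b
      simp only [pow_one]
      exact DZ_shift l (fun y => χ y) (b : ZMod q) x
    have e2 : ∀ b : ℕ, DZ l (fun y => χ (y + (b : ZMod q)) ^ 2) x =
        (starRingEnd ℂ) (Φ (x + (b : ZMod q))) := by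
      intro b
      have : (fun y : ZMod q => χ (y + (b : ZMod q)) ^ 2) =
          fun y => (starRingEnd ℂ) (χ (y + (b : ZMod q))) := by
        funext y
        rw [conj_cubic' χ hχ]
      rw [this, DZ_conj l (fun y => χ (y + (b : ZMod q))) x]
      congr 1
      exact DZ_shift l (fun y => χ y) (b : ZMod q) x
    simp only [ee, Sum.elim_inl, Sum.elim_inr, e1, e2, prod_const, card_univ, Fintype.card_fin]
    rw [← map_sum, ← mul_pow, Complex.mul_conj', ← pow_mul]
  rw [h1, prod_univ_sum]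
  apply sum_congr rfl
  intro h _
  rw [← DZ_prod l univ (fun i y => χ (y + (h i : ZMod q)) ^ ee r i) x]
  congr 1
  funext y
  rw [RR, map_prod]
  apply prod_congr rfl
  intro i _
  rw [map_pow]

lemma WB.mono {d d' : ℕ} (h : d ≤ d') {C : ℝ} (hW : WB d' C) : WB d C :=
  fun p _ χ h3 h1 F hF hα => hW p χ h3 h1 F (hF.trans h) hα

lemma prod_loc_le {I : Type} (h : I → ℕ) (i₀ : I) (C : ℝ) (hC : 1 ≤ C) (q : ℕ) (hq : q ≠ 0) :
    open Classical in
    ∏ p ∈ q.primeFactors, loc h i₀ C p ≤ 9 * C ^ q.primeFactors.card * Real.sqrt q *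
      ∑ S ∈ q.primeFactors.powerset, if (∀ p ∈ S, Bad h i₀ p) then Real.sqrt (∏ p ∈ S, p : ℕ)
        else 0 := by
  classical
  have hC0 : 0 ≤ C := by linarith
  unfold loc
  rw [prod_mul_distrib, prod_mul_distrib, prod_mul_distrib, prod_const]
  have h1 : ∏ p ∈ q.primeFactors, (if p = 3 then (9 : ℝ) else 1) ≤ 9 := by
    rw [prod_ite_eq']
    split_ifs
    · exact le_rfl
    · norm_num
  have h2 : ∏ p ∈ q.primeFactors, Real.sqrt p ≤ Real.sqrt q := by
    rw [← Real.sqrt_prod _ (fun p _ => Nat.cast_nonneg p)]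
    apply Real.sqrt_le_sqrt
    rw [← Nat.cast_prod]
    exact_mod_cast Nat.le_of_dvd (Nat.pos_of_ne_zero hq) (Nat.prod_primeFactors_dvd q)
  have h3 : ∏ p ∈ q.primeFactors, (if Bad h i₀ p then Real.sqrt p else 1) ≤
      ∑ S ∈ q.primeFactors.powerset, if (∀ p ∈ S, Bad h i₀ p) then Real.sqrt (∏ p ∈ S, p : ℕ)
        else 0 := by
    have h4 : ∏ p ∈ q.primeFactors, (if Bad h i₀ p then Real.sqrt p else 1)
        = if (∀ p ∈ q.primeFactors.filter (Bad h i₀), Bad h i₀ p) then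
            Real.sqrt (∏ p ∈ q.primeFactors.filter (Bad h i₀), p : ℕ) else 0 := by
      rw [if_pos (fun p hp => (mem_filter.1 hp).2), Nat.cast_prod,
        Real.sqrt_prod _ (fun p _ => Nat.cast_nonneg p), prod_filter]
    rw [h4]
    apply single_le_sum (f := fun S => if (∀ p ∈ S, Bad h i₀ p) then
      Real.sqrt (∏ p ∈ S, p : ℕ) else 0)
    · intro S _
      split_ifs
      · positivity
      · exact le_rfl
    · rw [mem_powerset]; exact filter_subset _ _
  have h5 : 0 ≤ ∏ p ∈ q.primeFactors, (if Bad h i₀ p then Real.sqrt p else 1) := by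
    apply prod_nonneg
    intro p _
    split_ifs
    · positivity
    · norm_num
  calc _ ≤ 9 * (C ^ q.primeFactors.card * Real.sqrt q *
        ∏ p ∈ q.primeFactors, (if Bad h i₀ p then Real.sqrt p else 1)) := by
        apply mul_le_mul h1 _ (by positivity) (by norm_num)
        gcongr
    _ ≤ _ := by
        rw [mul_assoc 9, mul_assoc 9]
        gcongr

theorem moment (r : ℕ) (hr : 1 ≤ r) (k : ℕ) (ε : ℝ) (hε : 0 < ε) :
    ∃ C : ℝ, 0 ≤ C ∧ ∀ (q : ℕ) [NeZero q] (χ : DirichletCharacter ℂ q), LocPrim χ → χ ^ 3 = 1 →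
      ∀ l : List (ZMod q), l.length ≤ k → ∀ B : ℕ,
        ∑ x : ZMod q, ‖∑ b ∈ Icc 1 B, DZ l (fun y => χ y) (x + (b : ZMod q))‖ ^ (2 * r) ≤
          C * gam l * ((B : ℝ) ^ r * q + (B : ℝ) ^ (2 * r) * (q : ℝ) ^ (1 / 2 + ε)) := by
  classical
  obtain ⟨C₀, hC₀, hWC⟩ := stmt_W (3 ^ k * (3 * r))
  set C₁ : ℝ := max C₀ 1 with hC₁
  have hC₁1 : 1 ≤ C₁ := le_max_right _ _
  have hWB : WB (3 ^ k * (3 * r)) C₁ := by
    intro p _ χ h3 h1 F hF hα
    exact (hWC p χ h3 h1 F hF hα).trans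
      (mul_le_mul_of_nonneg_right (le_max_left _ _) (Real.sqrt_nonneg _))
  set K : ℝ := C₁ * (2 * (2 * r)) with hK
  have hr1 : (1 : ℝ) ≤ r := by exact_mod_cast hr
  have hK1 : 1 ≤ K := by rw [hK]; nlinarith
  obtain ⟨C₂, hC₂, hom⟩ := omega_bound K hK1 ε hε
  refine ⟨(2 * r) ^ (2 * r) + 9 * (2 * r) * C₂, by positivity, ?_⟩
  intro q _ χ hprim hχ3 l hl B
  have hg1 := one_le_gam l
  have hq : q ≠ 0 := NeZero.ne q
  have hq0 : (0 : ℝ) ≤ q := Nat.cast_nonneg q
  set H := Fintype.piFinset (fun _ : Fin r ⊕ Fin r => Icc 1 B) with hH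
  set G : ((Fin r ⊕ Fin r) → ℕ) → ℂ := fun h =>
    ∑ x : ZMod q, DZ l (fun y => χ (RR (ee r) h y)) x with hG
  have hI : Fintype.card (Fin r ⊕ Fin r) = 2 * r := by
    rw [Fintype.card_sum, Fintype.card_fin]; ring
  set Deg : ((Fin r ⊕ Fin r) → ℕ) → Prop := fun h =>
    ∀ i₀, 3 ∣ ∑ i, if h i = h i₀ then ee r i else 0 with hDeg
  have hexp : ∑ x : ZMod q, ‖∑ b ∈ Icc 1 B, DZ l (fun y => χ y) (x + (b : ZMod q))‖ ^ (2 * r) =
      ‖∑ h ∈ H, G h‖ := by
    rw [← moment_expand2 r q χ hχ3 l B, Complex.norm_real, Real.norm_of_nonneg]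
    exact sum_nonneg fun x _ => pow_nonneg (norm_nonneg _) _
  rw [hexp]
  have h1 : ‖∑ h ∈ H, G h‖ ≤ ∑ h ∈ H.filter Deg, ‖G h‖ + ∑ h ∈ H.filter (fun h => ¬ Deg h), ‖G h‖ := by
    rw [sum_filter_add_sum_filter_not]
    exact norm_sum_le _ _
  have hdeg : ∑ h ∈ H.filter Deg, ‖G h‖ ≤ (2 * r) ^ (2 * r) * (B : ℝ) ^ r * q := by
    have h2 : ∀ h ∈ H.filter Deg, ‖G h‖ ≤ (q : ℝ) := by
      intro h _
      calc ‖G h‖ ≤ ∑ x : ZMod q, ‖DZ l (fun y => χ (RR (ee r) h y)) x‖ := norm_sum_le _ _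
        _ ≤ ∑ _x : ZMod q, (1 : ℝ) :=
            sum_le_sum fun x _ => DZ_norm l _ (fun y => DirichletCharacter.norm_le_one χ _) x
        _ = q := by simp [ZMod.card]
    refine (sum_le_card_nsmul _ _ _ h2).trans ?_
    rw [nsmul_eq_mul]
    apply mul_le_mul_of_nonneg_right _ hq0
    have h3 := card_twice r B hI hr Deg ?_
    · exact_mod_cast h3
    · intro h hh i
      by_contra hcon
      push Not at hcon
      have h4 := hh i
      have h5 : ∑ j, (if h j = h i then ee r j else 0) = ee r i := by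
        rw [sum_eq_single i]
        · simp
        · intro j _ hji
          rw [if_neg (hcon j hji)]
        · intro h; exact absurd (mem_univ i) h
      rw [h5] at h4
      rcases i with i | i <;> simp [ee] at h4
  have hpt : ∀ h : (Fin r ⊕ Fin r) → ℕ, ∀ i₀, ¬ 3 ∣ (∑ i, if h i = h i₀ then ee r i else 0) →
      ‖G h‖ ≤ gam l * (9 * C₁ ^ q.primeFactors.card * Real.sqrt q *
      ∑ S ∈ q.primeFactors.powerset, if (∀ p ∈ S, Bad h i₀ p) then Real.sqrt (∏ p ∈ S, p : ℕ)
        else 0) := by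
    intro h i₀ hnd
    obtain ⟨I', f1, f2, e', h', ha, hb, hc⟩ := DZ_RR χ hχ3 l (Fin r ⊕ Fin r) inferInstance
      inferInstance (ee r) h
    have hWB' : WB (∑ i, e' i) C₁ := by
      refine WB.mono ?_ hWB
      rw [hb, sum_ee]
      exact Nat.mul_le_mul_right _ (Nat.pow_le_pow_right (by norm_num) hl)
    obtain ⟨BP, hBP⟩ : ∃ BP : ℕ → Prop, ∀ p, BP p ↔ (Bad h i₀ p ∨ ∃ s ∈ l, p ∣ s.val) :=
      ⟨_, fun p => Iff.rfl⟩
    have h2 := G_bound2 e' h' C₁ hC₁1 hWB' BP (by
      intro p hp hp3 hnb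
      rw [hBP] at hnb
      push Not at hnb
      apply hc p hp hp3 hnb.2
      · rw [← Nat.cast_sum, sum_ee]
        push_cast
        have : (3 : ZMod 3) = 0 := by decide
        rw [this, zero_mul]
      · refine ⟨(h i₀ : ZMod p), ?_⟩
        unfold Mu
        intro h0
        apply hnd
        rw [← ZMod.natCast_eq_zero_iff]
        push_cast
        refine Eq.trans ?_ h0
        refine sum_congr rfl fun i _ => ?_
        have h3 : ((h i : ZMod p) = (h i₀ : ZMod p)) ↔ h i = h i₀ := by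
          constructor
          · intro h4
            by_contra h5
            apply hnb.1
            refine ⟨i, h5, ?_⟩
            rw [← ZMod.intCast_zmod_eq_zero_iff_dvd]
            push_cast
            rw [h4, sub_self]
          · intro h4; rw [h4]
        simp only [h3]) q inferInstance χ hprim hχ3
    have h3 : G h = ∑ x : ZMod q, χ (RR e' h' x) := sum_congr rfl fun x _ => ha x
    rw [h3]
    refine h2.trans ?_
    have h4 : ∏ p ∈ q.primeFactors, loc2 BP C₁ p ≤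
        gam l * ∏ p ∈ q.primeFactors, loc h i₀ C₁ p := by
      unfold gam
      rw [← prod_mul_distrib]
      apply prod_le_prod
      · intro p _
        exact loc2_nonneg _ _ hC₁1 p
      · intro p hp
        have hp1 : (1 : ℝ) ≤ Real.sqrt p :=
          Real.one_le_sqrt.2 (by exact_mod_cast (Nat.prime_of_mem_primeFactors hp).one_le)
        have hC0 : 0 ≤ C₁ := by linarith
        unfold loc2 loc
        have h5 : (if BP p then Real.sqrt p else 1) ≤
            (if (∃ s ∈ l, p ∣ s.val) then Real.sqrt p else 1) *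
              (if Bad h i₀ p then Real.sqrt p else 1) := by
          by_cases hA : Bad h i₀ p <;> by_cases hB : ∃ s ∈ l, p ∣ s.val
          · rw [if_pos ((hBP p).2 (Or.inl hA)), if_pos hB, if_pos hA]; nlinarith
          · rw [if_pos ((hBP p).2 (Or.inl hA)), if_neg hB, if_pos hA, one_mul]
          · rw [if_pos ((hBP p).2 (Or.inr hB)), if_pos hB, if_neg hA, mul_one]
          · rw [if_neg (fun h => not_or.2 ⟨hA, hB⟩ ((hBP p).1 h)), if_neg hB, if_neg hA, mul_one]
        have h6 : (0 : ℝ) ≤ (if p = 3 then 9 else 1) * (C₁ * Real.sqrt p) := by positivity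
        refine (le_of_eq (mul_assoc _ _ _).symm).trans ?_
        refine (mul_le_mul_of_nonneg_left h5 h6).trans (le_of_eq ?_)
        ring
    refine h4.trans ?_
    exact mul_le_mul_of_nonneg_left (prod_loc_le h i₀ C₁ hC₁1 q hq) (by linarith)
  have hnon : ∑ h ∈ H.filter (fun h => ¬ Deg h), ‖G h‖ ≤
      gam l * (9 * (2 * r) * K ^ q.primeFactors.card * Real.sqrt q * (B : ℝ) ^ (2 * r)) := by
    set c : ℝ := gam l * (9 * C₁ ^ q.primeFactors.card * Real.sqrt q) with hc
    have hc0 : 0 ≤ c := by positivity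
    have h2 : ∀ h ∈ H.filter (fun h => ¬ Deg h), ‖G h‖ ≤ ∑ i₀ : Fin r ⊕ Fin r, c *
        ∑ S ∈ q.primeFactors.powerset, if (∀ p ∈ S, Bad h i₀ p) then Real.sqrt (∏ p ∈ S, p : ℕ)
          else 0 := by
      intro h hh
      rw [mem_filter] at hh
      obtain ⟨-, hh⟩ := hh
      rw [hDeg] at hh
      push Not at hh
      obtain ⟨i₀, hi₀⟩ := hh
      refine (hpt h i₀ hi₀).trans ?_
      rw [← mul_assoc, ← hc]
      apply single_le_sum (f := fun i₀ : Fin r ⊕ Fin r => c *
        ∑ S ∈ q.primeFactors.powerset, if (∀ p ∈ S, Bad h i₀ p) then Real.sqrt (∏ p ∈ S, p : ℕ)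
          else 0) _ (mem_univ i₀)
      intro i _
      apply mul_nonneg hc0
      apply sum_nonneg
      intro S _
      split_ifs
      · exact Real.sqrt_nonneg _
      · exact le_rfl
    refine (sum_le_sum h2).trans ?_
    rw [sum_comm]
    have h3 : ∀ i₀ : Fin r ⊕ Fin r, ∑ h ∈ H.filter (fun h => ¬ Deg h), c *
        ∑ S ∈ q.primeFactors.powerset, (if (∀ p ∈ S, Bad h i₀ p) then Real.sqrt (∏ p ∈ S, p : ℕ)
          else 0) ≤ c * ((2 * (2 * r)) ^ q.primeFactors.card * (B : ℝ) ^ (2 * r)) := by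
      intro i₀
      rw [← mul_sum]
      apply mul_le_mul_of_nonneg_left _ hc0
      rw [sum_comm]
      have h4 : ∀ S ∈ q.primeFactors.powerset, ∑ h ∈ H.filter (fun h => ¬ Deg h),
          (if (∀ p ∈ S, Bad h i₀ p) then Real.sqrt (∏ p ∈ S, p : ℕ) else 0) ≤
          (2 * r : ℝ) ^ q.primeFactors.card * (B : ℝ) ^ (2 * r) := by
        intro S hS
        rw [mem_powerset] at hS
        have hSp : ∀ p ∈ S, p.Prime := fun p hp => Nat.prime_of_mem_primeFactors (hS hp)
        have hD : (1 : ℝ) ≤ (∏ p ∈ S, p : ℕ) := by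
          exact_mod_cast Nat.one_le_iff_ne_zero.2 (prod_pos fun p hp => (hSp p hp).pos).ne'
        have h5 : ∑ h ∈ H.filter (fun h => ¬ Deg h),
            (if (∀ p ∈ S, Bad h i₀ p) then Real.sqrt (∏ p ∈ S, p : ℕ) else 0) ≤
            ∑ h ∈ H, (if (∀ p ∈ S, Bad h i₀ p) then Real.sqrt (∏ p ∈ S, p : ℕ) else 0) := by
          apply sum_le_sum_of_subset_of_nonneg (filter_subset _ _)
          intro h _ _
          split_ifs
          · exact Real.sqrt_nonneg _
          · exact le_rfl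
        refine h5.trans ?_
        rw [← sum_filter, sum_const, nsmul_eq_mul]
        have h6 := card_bad i₀ B S hSp (fun h => ∀ p ∈ S, Bad h i₀ p) (fun h hh => hh)
        rw [hI] at h6
        calc _ ≤ ((2 * r : ℕ) : ℝ) ^ S.card * (B : ℝ) ^ (2 * r) / (∏ p ∈ S, p : ℕ)
              * Real.sqrt (∏ p ∈ S, p : ℕ) :=
              mul_le_mul_of_nonneg_right h6 (Real.sqrt_nonneg _)
          _ ≤ ((2 * r : ℕ) : ℝ) ^ S.card * (B : ℝ) ^ (2 * r) := by
              rw [div_mul_eq_mul_div]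
              apply div_le_of_le_mul₀ (by positivity) (by positivity)
              apply mul_le_mul_of_nonneg_left _ (by positivity)
              rw [Real.sqrt_le_left (by positivity)]
              nlinarith
          _ ≤ _ := by
              push_cast
              apply mul_le_mul_of_nonneg_right _ (by positivity)
              exact pow_le_pow_right₀ (by linarith) (card_le_card hS)
      refine (sum_le_card_nsmul _ _ _ h4).trans (le_of_eq ?_)
      rw [card_powerset, nsmul_eq_mul, mul_pow 2 (2 * (r : ℝ))]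
      push_cast
      ring
    refine (sum_le_sum fun i₀ _ => h3 i₀).trans (le_of_eq ?_)
    rw [sum_const, card_univ, hI, nsmul_eq_mul, hc, hK, mul_pow C₁]
    push_cast
    ring
  have hfin : K ^ q.primeFactors.card * Real.sqrt q ≤ C₂ * (q : ℝ) ^ (1 / 2 + ε) := by
    rw [Real.rpow_add' hq0 (by positivity), ← Real.sqrt_eq_rpow, mul_comm (Real.sqrt q), ← mul_assoc]
    exact mul_le_mul_of_nonneg_right (hom q hq) (Real.sqrt_nonneg _)
  have hB0 : (0 : ℝ) ≤ (B : ℝ) ^ (2 * r) := by positivity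
  have hB1 : (0 : ℝ) ≤ (B : ℝ) ^ r := by positivity
  have hX : 0 ≤ (q : ℝ) ^ (1 / 2 + ε) := by positivity
  have hA : (2 * (r : ℝ)) ^ (2 * r) * (B : ℝ) ^ r * q ≤
      gam l * ((2 * (r : ℝ)) ^ (2 * r) * (B : ℝ) ^ r * q) := by
    apply le_mul_of_one_le_left (by positivity) hg1
  have hBd : 9 * (2 * (r : ℝ)) * K ^ q.primeFactors.card * Real.sqrt q * (B : ℝ) ^ (2 * r) ≤
      9 * (2 * r) * (C₂ * (q : ℝ) ^ (1 / 2 + ε)) * (B : ℝ) ^ (2 * r) := by
    have : 9 * (2 * (r : ℝ)) * K ^ q.primeFactors.card * Real.sqrt q * (B : ℝ) ^ (2 * r)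
      = 9 * (2 * r) * (K ^ q.primeFactors.card * Real.sqrt q) * (B : ℝ) ^ (2 * r) := by ring
    rw [this]
    gcongr
  calc ‖∑ h ∈ H, G h‖ ≤ gam l * ((2 * r) ^ (2 * r) * (B : ℝ) ^ r * q) +
        gam l * (9 * (2 * r) * K ^ q.primeFactors.card * Real.sqrt q * (B : ℝ) ^ (2 * r)) := by
        linarith
    _ ≤ gam l * ((2 * r) ^ (2 * r) * (B : ℝ) ^ r * q) +
        gam l * (9 * (2 * r) * (C₂ * (q : ℝ) ^ (1 / 2 + ε)) * (B : ℝ) ^ (2 * r)) := by
        gcongr
    _ = gam l * ((2 * r) ^ (2 * r) * (B : ℝ) ^ r * q +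
        9 * (2 * r) * (C₂ * (q : ℝ) ^ (1 / 2 + ε)) * (B : ℝ) ^ (2 * r)) := by ring
    _ ≤ gam l * (((2 * r) ^ (2 * r) + 9 * (2 * r) * C₂) *
          ((B : ℝ) ^ r * q + (B : ℝ) ^ (2 * r) * (q : ℝ) ^ (1 / 2 + ε))) := by
        apply mul_le_mul_of_nonneg_left _ (by linarith)
        have e1 : 0 ≤ (2 * (r : ℝ)) ^ (2 * r) * ((B : ℝ) ^ (2 * r) * (q : ℝ) ^ (1 / 2 + ε)) := by
          positivity
        have e2 : 0 ≤ 9 * (2 * (r : ℝ)) * C₂ * ((B : ℝ) ^ r * q) := by positivity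
        nlinarith
    _ = _ := by ring

end Pool.Agent.Work.SC
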