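import Pool.Agent.Work.SC081200.VdC
import Pool.Agent.Work.SC081200.Mom

/-!
# MP_081200_nt, conductors with a smooth part: averages over the shifts
-/

set_option autoImplicit false

namespace Pool.Agent.Work.SC

open Finset Pool.Agent.Work.LV Pool.Agent.Work.LV.M

lemma HH_nil : HH [] = 1 := by simp [HH]

lemma HH_cons (p : ℕ × ℕ) (l : List (ℕ × ℕ)) : HH (p :: l) = (p.2 : ℝ) ^ 2 * HH l := by simp [HH]

lemma HH_nonneg (l : List (ℕ × ℕ)) : 0 ≤ HH l := by
  induction l with
  | nil => rw [HH_nil]; norm_num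
  | cons p l ih => rw [HH_cons]; positivity

lemma HH_pos (l : List (ℕ × ℕ)) (h : ∀ p ∈ l, 1 ≤ p.2) : 0 < HH l := by
  induction l with
  | nil => rw [HH_nil]; norm_num
  | cons p l ih =>
    rw [HH_cons]
    have h1 := ih (fun q hq => h q (by simp [hq]))
    have h2 : (0 : ℝ) < p.2 := by exact_mod_cast h p (by simp)
    positivity

lemma Av_mono (l : List (ℕ × ℕ)) : ∀ (Ψ Ψ' : List ℤ → ℝ)
    (_ : ∀ t, t.length = l.length → Ψ t ≤ Ψ' t), Av l Ψ ≤ Av l Ψ' := by
  induction l with
  | nil => intro Ψ Ψ' h; exact h [] rfl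
  | cons p l ih =>
    intro Ψ Ψ' h
    exact sum_le_sum fun _ _ => sum_le_sum fun _ _ => ih _ _ fun t ht => h _ (by simp [ht])

lemma Av_add (l : List (ℕ × ℕ)) : ∀ (Ψ Ψ' : List ℤ → ℝ),
    Av l (fun t => Ψ t + Ψ' t) = Av l Ψ + Av l Ψ' := by
  induction l with
  | nil => intro Ψ Ψ'; rfl
  | cons p l ih =>
    intro Ψ Ψ'
    simp only [Av]
    rw [← sum_add_distrib]
    refine sum_congr rfl fun _ _ => ?_
    rw [← sum_add_distrib]
    refine sum_congr rfl fun _ _ => ?_
    rw [← ih]

lemma Av_mul (l : List (ℕ × ℕ)) (c : ℝ) : ∀ (Ψ : List ℤ → ℝ),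
    Av l (fun t => c * Ψ t) = c * Av l Ψ := by
  induction l with
  | nil => intro Ψ; rfl
  | cons p l ih =>
    intro Ψ
    simp only [Av]
    rw [mul_sum]
    refine sum_congr rfl fun _ _ => ?_
    rw [mul_sum]
    refine sum_congr rfl fun _ _ => ?_
    rw [← ih]

lemma Av_one (l : List (ℕ × ℕ)) : Av l (fun _ => 1) = HH l := by
  induction l with
  | nil => simp [Av, HH_nil]
  | cons p l ih =>
    simp only [Av]
    rw [ih, HH_cons]
    simp
    ring

lemma Av_const (l : List (ℕ × ℕ)) (c : ℝ) : Av l (fun _ => c) = c * HH l := by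
  rw [← Av_one, ← Av_mul]
  simp

lemma Av_sum {ι : Type*} (l : List (ℕ × ℕ)) (s : Finset ι) : ∀ (Ψ : ι → List ℤ → ℝ),
    Av l (fun t => ∑ i ∈ s, Ψ i t) = ∑ i ∈ s, Av l (Ψ i) := by
  induction l with
  | nil => intro Ψ; rfl
  | cons p l ih =>
    intro Ψ
    simp only [Av]
    have h1 : ∀ x ∈ range p.2, ∀ y ∈ range p.2,
        Av l (fun t => ∑ i ∈ s, Ψ i (((p.1 : ℤ) * ((x : ℤ) - y)) :: t)) =
        ∑ i ∈ s, Av l (fun t => Ψ i (((p.1 : ℤ) * ((x : ℤ) - y)) :: t)) := fun x _ y _ => ih _
    rw [sum_congr rfl (fun x hx => sum_congr rfl (fun y hy => h1 x hx y hy))]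
    rw [sum_congr rfl (fun x _ => sum_comm)]
    rw [sum_comm]

lemma Av_pow (l : List (ℕ × ℕ)) (m : ℕ) : ∀ (Ψ : List ℤ → ℝ) (_ : ∀ t, 0 ≤ Ψ t),
    Av l Ψ ^ (m + 1) ≤ HH l ^ m * Av l (fun t => Ψ t ^ (m + 1)) := by
  induction l with
  | nil =>
    intro Ψ h
    simp [Av, HH_nil]
  | cons p l ih =>
    intro Ψ h
    simp only [Av]
    have h1 := pow_sum_div_card_le_sum_pow (s := range p.2 ×ˢ range p.2)
      (f := fun z => Av l (fun t => Ψ (((p.1 : ℤ) * ((z.1 : ℤ) - z.2)) :: t)))
      (fun z _ => Av_nonneg _ _ fun t => h _) m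
    rcases Nat.eq_zero_or_pos p.2 with h0 | hpos
    · rw [h0]; simp
    rw [card_product, card_range, div_le_iff₀ (by positivity)] at h1
    rw [← sum_product' (range p.2) (range p.2)
      (fun h h' => Av l (fun t => Ψ (((p.1 : ℤ) * ((h : ℤ) - h')) :: t)))]
    refine h1.trans ?_
    rw [HH_cons, mul_pow, mul_comm, mul_assoc]
    push_cast
    rw [← pow_two]
    apply mul_le_mul_of_nonneg_left _ (by positivity)
    rw [sum_product, mul_sum]
    refine sum_le_sum fun x _ => ?_
    rw [mul_sum]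
    refine sum_le_sum fun y _ => ?_
    exact ih _ fun t => h _

lemma Av_zero (l : List (ℕ × ℕ)) (hl : ∀ p ∈ l, 1 ≤ p.1 ∧ 1 ≤ p.2) :
    Av l (fun t => if (0 : ℤ) ∈ t then 1 else 0) ≤ HH l * (l.map fun p => 1 / (p.2 : ℝ)).sum := by
  classical
  induction l with
  | nil => simp [Av]
  | cons p l ih =>
    obtain ⟨hp1, hp2⟩ := hl p (by simp)
    have hp2' : (0 : ℝ) < p.2 := by exact_mod_cast hp2
    have hp1' : (p.1 : ℤ) ≠ 0 := by
      have : p.1 ≠ 0 := by omega
      exact_mod_cast this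
    have ih' := ih (fun q hq => hl q (by simp [hq]))
    simp only [Av]
    have h1 : ∀ h ∈ range p.2, ∀ h' ∈ range p.2,
        Av l (fun t => if (0 : ℤ) ∈ (((p.1 : ℤ) * ((h : ℤ) - h')) :: t) then (1 : ℝ) else 0) ≤
        (if h = h' then HH l else 0) + Av l (fun t => if (0 : ℤ) ∈ t then 1 else 0) := by
      intro h _ h' _
      by_cases hh : h = h'
      · rw [if_pos hh]
        have h2 : Av l (fun t => if (0 : ℤ) ∈ (((p.1 : ℤ) * ((h : ℤ) - h')) :: t) then (1 : ℝ) else 0)
            ≤ Av l (fun _ => 1) := Av_mono _ _ _ fun t _ => by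
              show (if (0 : ℤ) ∈ (((p.1 : ℤ) * ((h : ℤ) - h')) :: t) then (1 : ℝ) else 0) ≤ 1
              split_ifs <;> norm_num
        rw [Av_one] at h2
        have h3 : 0 ≤ Av l (fun t => if (0 : ℤ) ∈ t then (1 : ℝ) else 0) :=
          Av_nonneg _ _ fun t => by
            show (0 : ℝ) ≤ if (0 : ℤ) ∈ t then (1 : ℝ) else 0
            split_ifs <;> norm_num
        linarith
      · rw [if_neg hh, zero_add]
        apply Av_mono
        intro t _
        have h4 : (0 : ℤ) ∈ (((p.1 : ℤ) * ((h : ℤ) - h')) :: t) ↔ (0 : ℤ) ∈ t := by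
          rw [List.mem_cons]
          constructor
          · rintro (h5 | h5)
            · exfalso
              have h6 := mul_eq_zero.1 h5.symm
              rcases h6 with h6 | h6
              · exact hp1' h6
              · exact hh (by omega)
            · exact h5
          · exact Or.inr
        simp only [h4]
        exact le_rfl
    refine (sum_le_sum fun h hh => sum_le_sum fun h' hh' => h1 h hh h' hh').trans ?_
    have h2 : ∑ h ∈ range p.2, ∑ h' ∈ range p.2,
        ((if h = h' then HH l else 0) + Av l (fun t => if (0 : ℤ) ∈ t then (1 : ℝ) else 0)) =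
        p.2 * HH l + (p.2 : ℝ) ^ 2 * Av l (fun t => if (0 : ℤ) ∈ t then (1 : ℝ) else 0) := by
      simp only [sum_add_distrib, sum_const, card_range, nsmul_eq_mul]
      congr 1
      · rw [sum_congr rfl (fun h hh => by rw [sum_ite_eq, if_pos hh])]
        simp
      · ring
    rw [h2, HH_cons, List.map_cons, List.sum_cons]
    have h3 := mul_le_mul_of_nonneg_left ih' (by positivity : (0 : ℝ) ≤ (p.2 : ℝ) ^ 2)
    have h4 : (p.2 : ℝ) * HH l = (p.2 : ℝ) ^ 2 * HH l * (1 / (p.2 : ℝ)) := by
      field_simp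
    rw [h4]
    linarith

lemma Av_prod (l : List (ℕ × ℕ)) (γ : ℤ → ℝ) (hγ : ∀ s, 0 ≤ γ s) (T : ℝ) (hT : 0 ≤ T)
    (h : ∀ p ∈ l, ∑ h ∈ range p.2, ∑ h' ∈ range p.2, γ ((p.1 : ℤ) * ((h : ℤ) - h')) ≤
      T * (p.2 : ℝ) ^ 2) :
    Av l (fun t => (t.map γ).prod) ≤ T ^ l.length * HH l := by
  induction l with
  | nil => simp [Av, HH_nil]
  | cons p l ih =>
    have ih' := ih (fun q hq => h q (by simp [hq]))
    simp only [Av, List.map_cons, List.prod_cons]
    have h1 : ∀ x ∈ range p.2, ∀ y ∈ range p.2,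
        Av l (fun t => γ ((p.1 : ℤ) * ((x : ℤ) - y)) * (t.map γ).prod) =
        γ ((p.1 : ℤ) * ((x : ℤ) - y)) * Av l (fun t => (t.map γ).prod) := fun x _ y _ => Av_mul _ _ _
    rw [sum_congr rfl (fun x hx => sum_congr rfl (fun y hy => h1 x hx y hy))]
    simp only [← sum_mul]
    rw [HH_cons, List.length_cons, pow_succ]
    have h0 : 0 ≤ Av l (fun t => (t.map γ).prod) := Av_nonneg _ _ fun t =>
      List.prod_nonneg fun a ha => by
        rw [List.mem_map] at ha
        obtain ⟨s, _, rfl⟩ := ha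
        exact hγ s
    calc _ ≤ (T * (p.2 : ℝ) ^ 2) * (T ^ l.length * HH l) :=
          mul_le_mul (h p (by simp)) ih' h0 (by positivity)
      _ = _ := by ring

/-- local loss of a shift -/
noncomputable def ga (G : ℕ) (s : ℤ) : ℝ :=
  open Classical in
  if s = 0 then 0 else ∏ p ∈ G.primeFactors, if (p : ℤ) ∣ s then Real.sqrt p else 1

lemma ga_nonneg (G : ℕ) (s : ℤ) : 0 ≤ ga G s := by
  unfold ga
  split_ifs
  · exact le_rfl
  · apply prod_nonneg
    intro p _
    split_ifs
    · positivity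
    · norm_num

lemma gam_le {G : ℕ} [NeZero G] (t : List ℤ) (ht : (0 : ℤ) ∉ t) :
    gam (t.map (fun s : ℤ => (s : ZMod G))) ≤ (t.map (ga G)).prod := by
  classical
  induction t with
  | nil => simp [gam]
  | cons s t ih =>
    rw [List.mem_cons, not_or] at ht
    have ih' := ih ht.2
    rw [List.map_cons, List.map_cons, List.prod_cons]
    have h0 : 0 ≤ gam (t.map (fun s : ℤ => (s : ZMod G))) := by
      have := one_le_gam (t.map (fun s : ℤ => (s : ZMod G)))
      linarith
    refine le_trans ?_ (mul_le_mul_of_nonneg_left ih' (ga_nonneg G s))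
    unfold ga
    rw [if_neg (fun h => ht.1 h.symm)]
    unfold gam
    rw [← prod_mul_distrib]
    apply prod_le_prod
    · intro p _
      split_ifs
      · positivity
      · norm_num
    · intro p hp
      have hp1 : (1 : ℝ) ≤ Real.sqrt p :=
        Real.one_le_sqrt.2 (by exact_mod_cast (Nat.prime_of_mem_primeFactors hp).one_le)
      have hpG : p ∣ G := Nat.dvd_of_mem_primeFactors hp
      have hs : p ∣ (s : ZMod G).val ↔ (p : ℤ) ∣ s := by
        have h1 : (((s : ZMod G).val : ℤ) : ZMod G) = (s : ZMod G) := by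
          rw [Int.cast_natCast, ZMod.natCast_zmod_val]
        have h2 : (G : ℤ) ∣ ((s : ZMod G).val : ℤ) - s := by
          rw [← ZMod.intCast_zmod_eq_zero_iff_dvd]
          push_cast
          rw [ZMod.natCast_zmod_val, sub_self]
        have h3 : (p : ℤ) ∣ ((s : ZMod G).val : ℤ) - s :=
          (Int.natCast_dvd_natCast.2 hpG).trans h2
        rw [← Int.natCast_dvd_natCast]
        constructor
        · intro h
          have := dvd_sub h h3
          simpa using this
        · intro h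
          have := dvd_add h h3
          simpa using this
      by_cases hA : p ∣ (s : ZMod G).val
      · have h4 : ∃ s' ∈ ((s : ZMod G) :: t.map (fun s : ℤ => (s : ZMod G))), p ∣ s'.val :=
          ⟨_, List.mem_cons_self, hA⟩
        rw [if_pos h4, if_pos (hs.1 hA)]
        split_ifs
        · nlinarith
        · rw [mul_one]
      · rw [if_neg (fun h => hA (hs.2 h)), one_mul]
        by_cases hB : ∃ s' ∈ t.map (fun s : ℤ => (s : ZMod G)), p ∣ s'.val
        · obtain ⟨s', h5, h6⟩ := hB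
          rw [if_pos ⟨s', List.mem_cons_of_mem _ h5, h6⟩, if_pos ⟨s', h5, h6⟩]
        · rw [if_neg, if_neg hB]
          rintro ⟨s', h5, h6⟩
          rw [List.mem_cons] at h5
          rcases h5 with rfl | h5
          · exact hA h6
          · exact hB ⟨s', h5, h6⟩

lemma ga_le (G : ℕ) (hG : G ≠ 0) (s : ℤ) (hs : s ≠ 0) :
    ga G s ≤ ∑ d ∈ G.divisors, if (d : ℤ) ∣ s then Real.sqrt d else 0 := by
  classical
  unfold ga
  rw [if_neg hs]
  set D := ∏ p ∈ G.primeFactors.filter (fun p : ℕ => (p : ℤ) ∣ s), p with hD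
  have h1 : ∏ p ∈ G.primeFactors, (if (p : ℤ) ∣ s then Real.sqrt p else 1) = Real.sqrt D := by
    rw [hD, Nat.cast_prod, Real.sqrt_prod _ (fun p _ => Nat.cast_nonneg p), prod_filter]
  have h2 : D ∣ G := by
    refine dvd_trans ?_ (Nat.prod_primeFactors_dvd G)
    rw [hD]
    exact prod_dvd_prod_of_subset _ _ _ (filter_subset _ _)
  have h3 : (D : ℤ) ∣ s := by
    rw [Int.natCast_dvd, hD]
    apply Finset.prod_primes_dvd
    · intro p hp
      exact (Nat.prime_of_mem_primeFactors (mem_filter.1 hp).1).prime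
    · intro p hp
      exact Int.natCast_dvd.1 (mem_filter.1 hp).2
  rw [h1]
  have h4 : (if (D : ℤ) ∣ s then Real.sqrt D else 0) ≤
      ∑ d ∈ G.divisors, if (d : ℤ) ∣ s then Real.sqrt d else 0 := by
    apply single_le_sum (f := fun d : ℕ => if (d : ℤ) ∣ s then Real.sqrt d else 0)
    · intro d _
      split_ifs
      · positivity
      · exact le_rfl
    · exact Nat.mem_divisors.2 ⟨h2, hG⟩
  rw [if_pos h3] at h4
  exact h4

/-- the average of the local losses -/
lemma ga_avg (G F H : ℕ) (hG : G ≠ 0) (hF : F.Coprime G) :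
    ∑ h ∈ range H, ∑ h' ∈ range H, ga G ((F : ℤ) * ((h : ℤ) - h')) ≤
      (G.divisors.card : ℝ) * (H : ℝ) ^ 2 := by
  classical
  rcases Nat.eq_zero_or_pos F with hF0 | hF0
  · subst hF0
    have : ∀ h ∈ range H, ∀ h' ∈ range H, ga G (((0 : ℕ) : ℤ) * ((h : ℤ) - h')) = 0 := by
      intro h _ h' _
      simp [ga]
    rw [sum_congr rfl (fun h hh => sum_congr rfl (fun h' hh' => this h hh h' hh'))]
    simp
    positivity
  have hF0' : (F : ℤ) ≠ 0 := by exact_mod_cast hF0.ne'
  have h1 : ∀ h ∈ range H, ∀ h' ∈ range H, ga G ((F : ℤ) * ((h : ℤ) - h')) ≤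
      ∑ d ∈ G.divisors, if (h ≠ h' ∧ (d : ℤ) ∣ (h : ℤ) - h') then Real.sqrt d else 0 := by
    intro h _ h' _
    by_cases hh : h = h'
    · subst hh
      simp [ga]
    · have hne : (F : ℤ) * ((h : ℤ) - h') ≠ 0 := mul_ne_zero hF0' (by omega)
      refine (ga_le G hG _ hne).trans (le_of_eq ?_)
      refine sum_congr rfl fun d hd => ?_
      have hcop : IsCoprime (d : ℤ) (F : ℤ) := by
        rw [Nat.isCoprime_iff_coprime]
        exact (hF.coprime_dvd_right (Nat.dvd_of_mem_divisors hd)).symm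
      have : (d : ℤ) ∣ (F : ℤ) * ((h : ℤ) - h') ↔ (h ≠ h' ∧ (d : ℤ) ∣ (h : ℤ) - h') :=
        ⟨fun h2 => ⟨hh, hcop.dvd_of_dvd_mul_left h2⟩, fun h2 => h2.2.mul_left _⟩
      simp only [this]
  refine (sum_le_sum fun h hh => sum_le_sum fun h' hh' => h1 h hh h' hh').trans ?_
  rw [sum_congr rfl (fun x _ => sum_comm), sum_comm]
  have h2 : ∀ d ∈ G.divisors, ∑ x ∈ range H, ∑ y ∈ range H,
      (if (x ≠ y ∧ (d : ℤ) ∣ (x : ℤ) - y) then Real.sqrt d else 0) ≤ (H : ℝ) ^ 2 := by
    intro d hd
    have hd0 : 0 < d := Nat.pos_of_mem_divisors hd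
    have hd0' : (0 : ℝ) < d := by exact_mod_cast hd0
    have hd1 : (1 : ℝ) ≤ Real.sqrt d := Real.one_le_sqrt.2 (by exact_mod_cast hd0)
    have hsq : Real.sqrt d * Real.sqrt d = d := Real.mul_self_sqrt hd0'.le
    have h3 : ∀ x ∈ range H, ∑ y ∈ range H,
        (if (x ≠ y ∧ (d : ℤ) ∣ (x : ℤ) - y) then Real.sqrt d else 0) ≤ H := by
      intro x hx
      rw [mem_range] at hx
      rw [← sum_filter, sum_const, nsmul_eq_mul]
      have h4 : (((range H).filter (fun y : ℕ => x ≠ y ∧ (d : ℤ) ∣ (x : ℤ) - y)).card : ℝ) ≤ H / d := by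
        have h5 : insert x ((range H).filter (fun y : ℕ => x ≠ y ∧ (d : ℤ) ∣ (x : ℤ) - y)) ⊆
            (range H).filter (fun y : ℕ => y % d = x % d) := by
          intro y hy
          rw [mem_insert] at hy
          rcases hy with rfl | hy
          · exact mem_filter.2 ⟨mem_range.2 hx, rfl⟩
          · obtain ⟨h6, h7, h8⟩ := mem_filter.1 hy
            refine mem_filter.2 ⟨h6, ?_⟩
            have h9 := (Nat.modEq_iff_dvd (n := d) (a := y) (b := x)).2 h8
            exact h9
        have h6 := card_le_card h5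
        rw [card_insert_of_notMem (by simp)] at h6
        have h7 : ((range H).filter (fun y : ℕ => y % d = x % d)).card ≤ (H - 1) / d + 1 := by
          have : ((range H).filter (fun y : ℕ => y % d = x % d)).card ≤
              (range ((H - 1) / d + 1)).card := by
            apply Finset.card_le_card_of_injOn (fun y => y / d)
            · intro y hy
              have hy' := mem_range.1 (mem_filter.1 hy).1
              simp only [Finset.coe_range, Set.mem_Iio]
              exact Nat.lt_succ_of_le (Nat.div_le_div_right (by omega))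
            · intro y hy z hz heq
              have h8 := (mem_filter.1 hy).2
              have h9 := (mem_filter.1 hz).2
              simp only at heq
              rw [← Nat.div_add_mod y d, ← Nat.div_add_mod z d, heq, h8, h9]
          rwa [card_range] at this
        have h8 : ((range H).filter (fun y : ℕ => x ≠ y ∧ (d : ℤ) ∣ (x : ℤ) - y)).card ≤
            (H - 1) / d := by omega
        calc (((range H).filter (fun y : ℕ => x ≠ y ∧ (d : ℤ) ∣ (x : ℤ) - y)).card : ℝ) ≤
              (((H - 1) / d : ℕ) : ℝ) := by exact_mod_cast h8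
          _ ≤ ((H - 1 : ℕ) : ℝ) / d := Nat.cast_div_le
          _ ≤ H / d := by
              apply div_le_div_of_nonneg_right _ hd0'.le
              exact_mod_cast Nat.sub_le _ _
      calc _ ≤ (H : ℝ) / d * Real.sqrt d := mul_le_mul_of_nonneg_right h4 (Real.sqrt_nonneg _)
        _ ≤ H := by
            rw [div_mul_eq_mul_div, div_le_iff₀ hd0']
            apply mul_le_mul_of_nonneg_left _ (Nat.cast_nonneg _)
            nlinarith
    refine (sum_le_card_nsmul _ _ _ h3).trans (le_of_eq ?_)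
    rw [card_range, nsmul_eq_mul]; ring
  refine (sum_le_card_nsmul _ _ _ h2).trans (le_of_eq ?_)
  rw [nsmul_eq_mul]

end Pool.Agent.Work.SC
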