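import Pool.Agent.Work.SC081200.VdC
import Pool.Agent.Work.SC081200.Mom
import Pool.Agent.Work.LV.A2

/-!
# MP_081200_nt, conductors with a smooth part: incomplete sums of differenced characters
-/

set_option autoImplicit false

namespace Pool.Agent.Work.SC

open Finset Pool.Agent.Work.LV Pool.Agent.Work.LV.M

lemma DD_cast {G : ℕ} (t : List ℤ) (φ : ZMod G → ℂ) (a : ℤ) :
    DD t (fun a : ℤ => φ (a : ZMod G)) a = DZ (t.map (fun s : ℤ => (s : ZMod G))) φ (a : ZMod G) := by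
  induction t generalizing φ with
  | nil => rfl
  | cons s t ih =>
    simp only [DD, List.map_cons, DZ]
    rw [← ih]
    congr 1
    funext b
    simp only [Del]
    push_cast
    rfl

lemma DD_ind (t : List ℤ) : ∀ (M : ℤ) (N : ℕ), ∃ (M' : ℤ) (N' : ℕ),
    Ioc M' (M' + N') ⊆ Ioc M (M + N) ∧ ∀ (φ : ℤ → ℂ) (a : ℤ),
      DD t (fun a => if a ∈ Ioc M (M + N) then φ a else 0) a =
        if a ∈ Ioc M' (M' + N') then DD t φ a else 0 := by
  induction t with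
  | nil => intro M N; exact ⟨M, N, Subset.rfl, fun φ a => rfl⟩
  | cons s t ih =>
    intro M N
    obtain ⟨M1, hM1⟩ : ∃ x : ℤ, x = max M (M - s) := ⟨_, rfl⟩
    obtain ⟨E1, hE1⟩ : ∃ x : ℤ, x = min (M + N) (M + N - s) := ⟨_, rfl⟩
    obtain ⟨M', N', h1, h2⟩ := ih M1 (E1 - M1).toNat
    have hmem : ∀ a, a ∈ Ioc M1 (M1 + ((E1 - M1).toNat : ℤ)) ↔
        (a + s ∈ Ioc M (M + N) ∧ a ∈ Ioc M (M + N)) := by
      intro a
      simp only [mem_Ioc]
      constructor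
      · rintro ⟨h3, h4⟩
        have h5 : M1 < E1 := by
          by_contra hcon
          have : (E1 - M1).toNat = 0 := by omega
          rw [this] at h4
          push_cast at h4
          omega
        have h6 : ((E1 - M1).toNat : ℤ) = E1 - M1 := by omega
        rw [h6] at h4
        omega
      · rintro ⟨⟨h3, h4⟩, h5, h6⟩
        omega
    refine ⟨M', N', ?_, ?_⟩
    · intro a ha
      exact ((hmem a).1 (h1 ha)).2
    · intro φ a
      simp only [DD]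
      rw [← h2]
      congr 1
      funext b
      simp only [Del]
      by_cases hb : b ∈ Ioc M1 (M1 + ((E1 - M1).toNat : ℤ))
      · obtain ⟨h3, h4⟩ := (hmem b).1 hb
        rw [if_pos hb, if_pos h3, if_pos h4]
      · rw [if_neg hb]
        by_cases h3 : b + s ∈ Ioc M (M + N)
        · have h4 : b ∉ Ioc M (M + N) := fun h4 => hb ((hmem b).2 ⟨h3, h4⟩)
          rw [if_neg h4, map_zero, mul_zero]
        · rw [if_neg h3, zero_mul]

lemma sum_Ioc_shift {β : Type*} [AddCommMonoid β] (f : ℤ → β) (M : ℤ) (N : ℕ) :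
    ∑ a ∈ Ioc M (M + N), f a = ∑ n ∈ Icc 1 N, f (M + (n : ℤ)) := by
  symm
  refine Finset.sum_bij (fun n _ => M + (n : ℤ)) ?_ ?_ ?_ ?_
  · intro n hn
    rw [mem_Icc] at hn
    rw [mem_Ioc]
    omega
  · intro a ha b hb h
    simpa using h
  · intro b hb
    rw [mem_Ioc] at hb
    refine ⟨(b - M).toNat, ?_, ?_⟩
    · rw [mem_Icc]; omega
    · show M + ((b - M).toNat : ℤ) = b
      omega
  · intro a ha
    rfl

lemma shiftB (φ : ℤ → ℂ) (hφ : ∀ a, ‖φ a‖ ≤ 1) (M M' : ℤ) (N' L B : ℕ)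
    (hsub : Ioc M' (M' + N') ⊆ Ioc M (M + L)) :
    (B : ℝ) * ‖∑ a ∈ Ioc M' (M' + N'), φ a‖ ≤
      2 * (B : ℝ) ^ 2 + ∑ a ∈ Ioc M (M + L), ‖∑ b ∈ Icc 1 B, φ (a + (b : ℤ))‖ := by
  set S := ∑ a ∈ Ioc M' (M' + N'), φ a with hS
  have h1 : ∀ b ∈ Icc 1 B, ‖S - ∑ n ∈ Icc 1 N', φ (M' + (n : ℤ) + (b : ℤ))‖ ≤ 2 * B := by
    intro b hb
    rw [mem_Icc] at hb
    rw [hS, sum_Ioc_shift]
    have := shift_le (fun n => φ (M' + (n : ℤ))) (fun n => hφ _) N' b
    refine le_trans (le_of_eq ?_) (this.trans ?_)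
    · congr 2
      apply Finset.sum_congr rfl
      intro n _
      push_cast
      ring_nf
    · have : (b : ℝ) ≤ B := by exact_mod_cast hb.2
      linarith
  have h2 : (B : ℂ) * S = ∑ b ∈ Icc 1 B, (S - ∑ n ∈ Icc 1 N', φ (M' + (n : ℤ) + (b : ℤ))) +
      ∑ b ∈ Icc 1 B, ∑ n ∈ Icc 1 N', φ (M' + (n : ℤ) + (b : ℤ)) := by
    rw [← Finset.sum_add_distrib]
    simp
  have h3 : ‖∑ b ∈ Icc 1 B, (S - ∑ n ∈ Icc 1 N', φ (M' + (n : ℤ) + (b : ℤ)))‖ ≤ B * (2 * B) := by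
    refine (norm_sum_le _ _).trans ((Finset.sum_le_sum h1).trans ?_)
    simp
  have h4 : ‖∑ b ∈ Icc 1 B, ∑ n ∈ Icc 1 N', φ (M' + (n : ℤ) + (b : ℤ))‖ ≤
      ∑ a ∈ Ioc M (M + L), ‖∑ b ∈ Icc 1 B, φ (a + (b : ℤ))‖ := by
    rw [Finset.sum_comm]
    refine (norm_sum_le _ _).trans ?_
    rw [← sum_Ioc_shift (fun a => ‖∑ b ∈ Icc 1 B, φ (a + (b : ℤ))‖) M' N']
    exact sum_le_sum_of_subset_of_nonneg hsub fun _ _ _ => norm_nonneg _
  have h5 : ‖(B : ℂ) * S‖ ≤ B * (2 * B) +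
      ∑ a ∈ Ioc M (M + L), ‖∑ b ∈ Icc 1 B, φ (a + (b : ℤ))‖ := by
    rw [h2]
    exact (norm_add_le _ _).trans (add_le_add h3 h4)
  rw [norm_mul, Complex.norm_natCast] at h5
  linarith

/-- absolute values of short sums of a differenced character -/
noncomputable def T2 {G : ℕ} (ψ : DirichletCharacter ℂ G) (t : List ℤ) (B : ℕ) (x : ZMod G) : ℝ :=
  ‖∑ b ∈ Icc 1 B, DZ (t.map (fun s : ℤ => (s : ZMod G))) (fun y => ψ y) (x + (b : ZMod G))‖

lemma T2_nonneg {G : ℕ} (ψ : DirichletCharacter ℂ G) (t : List ℤ) (B : ℕ) (x : ZMod G) :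
    0 ≤ T2 ψ t B x := norm_nonneg _

lemma T2_le {G : ℕ} (ψ : DirichletCharacter ℂ G) (t : List ℤ) (B : ℕ) (x : ZMod G) :
    T2 ψ t B x ≤ B := by
  unfold T2
  refine (norm_sum_le _ _).trans ?_
  refine (sum_le_card_nsmul _ _ 1 fun b _ =>
    DZ_norm _ _ (fun y => DirichletCharacter.norm_le_one ψ y) _).trans ?_
  simp

lemma inner_bound {G : ℕ} (ψ : DirichletCharacter ℂ G) (t : List ℤ) (M : ℤ) (N L B : ℕ)
    (hN : N ≤ L) :
    (B : ℝ) * ‖∑' a, DD t (fun a : ℤ => if a ∈ Ioc M (M + N) then ψ (a : ZMod G) else 0) a‖ ≤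
      2 * (B : ℝ) ^ 2 + ∑ n ∈ Icc 1 L, T2 ψ t B ((M : ZMod G) + (n : ZMod G)) := by
  obtain ⟨M', N', h1, h2⟩ := DD_ind t M N
  have h3 : ∑' a, DD t (fun a : ℤ => if a ∈ Ioc M (M + N) then ψ (a : ZMod G) else 0) a =
      ∑ a ∈ Ioc M' (M' + N'), DD t (fun a : ℤ => ψ (a : ZMod G)) a := by
    rw [tsum_eq_sum (s := Ioc M' (M' + N'))]
    · refine sum_congr rfl fun a ha => ?_
      rw [h2, if_pos ha]
    · intro a ha
      rw [h2, if_neg ha]
  rw [h3]
  have h4 := shiftB (DD t (fun a : ℤ => ψ (a : ZMod G)))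
    (fun a => DD_norm t (fun b => DirichletCharacter.norm_le_one ψ _) a) M M' N' L B
    (h1.trans (by
      intro a ha
      rw [mem_Ioc] at ha ⊢
      omega))
  refine h4.trans (le_of_eq ?_)
  rw [sum_Ioc_shift]
  congr 1
  refine sum_congr rfl fun n _ => ?_
  unfold T2
  congr 1
  refine sum_congr rfl fun b _ => ?_
  rw [DD_cast t (fun y => ψ y)]
  push_cast
  rfl

/-- every residue class is covered few times -/
lemma cover {G : ℕ} [NeZero G] (L0 : ℕ) (L : ℝ) (hL : (L0 : ℝ) ≤ L) (𝓜 : Finset ℤ)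
    (hsep : Sep G L 𝓜) (F : ZMod G → ℝ) (hF : ∀ x, 0 ≤ F x) :
    ∑ M ∈ 𝓜, ∑ n ∈ Icc 1 L0, F ((M : ZMod G) + (n : ZMod G)) ≤
      ((L0 : ℝ) / G + 1) * ∑ x : ZMod G, F x := by
  classical
  have hG : 0 < G := Nat.pos_of_ne_zero (NeZero.ne G)
  have hG' : (0 : ℝ) < G := by exact_mod_cast hG
  rw [← sum_product' 𝓜 (Icc 1 L0) (fun M n => F ((M : ZMod G) + (n : ZMod G))),
    ← sum_fiberwise (𝓜 ×ˢ Icc 1 L0) (fun z => ((z.1 : ZMod G) + (z.2 : ZMod G))), mul_sum]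
  apply sum_le_sum
  intro x _
  have h1 : ∀ z ∈ (𝓜 ×ˢ Icc 1 L0).filter (fun z => ((z.1 : ZMod G) + (z.2 : ZMod G)) = x),
      F ((z.1 : ZMod G) + (z.2 : ZMod G)) = F x := fun z hz => by rw [(mem_filter.1 hz).2]
  rw [sum_congr rfl h1, sum_const, nsmul_eq_mul]
  apply mul_le_mul_of_nonneg_right _ (hF x)
  rcases ((𝓜 ×ˢ Icc 1 L0).filter
    (fun z => ((z.1 : ZMod G) + (z.2 : ZMod G)) = x)).eq_empty_or_nonempty with he | ⟨z0, hz0⟩
  · rw [he]
    simp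
    positivity
  · have hM : ∀ z ∈ (𝓜 ×ˢ Icc 1 L0).filter
        (fun z => ((z.1 : ZMod G) + (z.2 : ZMod G)) = x), z.1 = z0.1 := by
      intro z hz
      by_contra hne
      rw [mem_filter, mem_product, mem_Icc] at hz hz0
      obtain ⟨⟨hz1, hz2⟩, hz3⟩ := hz
      obtain ⟨⟨hw1, hw2⟩, hw3⟩ := hz0
      have h2 : (((z.1 + z.2) - (z0.1 + z0.2) : ℤ) : ZMod G) = 0 := by
        push_cast
        rw [hz3, hw3, sub_self]
      rw [ZMod.intCast_zmod_eq_zero_iff_dvd] at h2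
      obtain ⟨k, hk⟩ := h2
      have h3 := hsep z.1 hz1 z0.1 hw1 hne k
      have h4 : z.1 - z0.1 - k * (G : ℤ) = z0.2 - z.2 := by linarith
      rw [h4] at h3
      have h5 : |((z0.2 - z.2 : ℤ) : ℝ)| ≤ (L0 : ℝ) - 1 := by
        rw [← Int.cast_abs]
        have : |(z0.2 : ℤ) - z.2| ≤ L0 - 1 := by rw [abs_le]; constructor <;> omega
        exact_mod_cast this
      linarith
    have hcard : ((𝓜 ×ˢ Icc 1 L0).filter
        (fun z => ((z.1 : ZMod G) + (z.2 : ZMod G)) = x)).card ≤ (range (L0 / G + 1)).card := by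
      apply Finset.card_le_card_of_injOn (fun z => z.2 / G)
      · intro z hz
        have hz' := (mem_product.1 (mem_filter.1 hz).1).2
        rw [mem_Icc] at hz'
        simp only [Finset.coe_range, Set.mem_Iio]
        exact Nat.lt_succ_of_le (Nat.div_le_div_right hz'.2)
      · intro z hz w hw heq
        have e1 := hM z hz
        have e2 := hM w hw
        have z3 := (mem_filter.1 hz).2
        have w3 := (mem_filter.1 hw).2
        simp only at heq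
        have h2 : ((z.2 : ZMod G)) = (w.2 : ZMod G) := by
          have : (z.1 : ZMod G) + (z.2 : ZMod G) = (w.1 : ZMod G) + (w.2 : ZMod G) := by
            rw [z3, w3]
          rw [e1, e2] at this
          exact add_left_cancel this
        have h3 : z.2 % G = w.2 % G := (ZMod.natCast_eq_natCast_iff' _ _ _).1 h2
        have h4 : z.2 = w.2 := by
          rw [← Nat.div_add_mod z.2 G, ← Nat.div_add_mod w.2 G, heq, h3]
        exact Prod.ext (e1.trans e2.symm) h4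
    rw [card_range] at hcard
    calc (((𝓜 ×ˢ Icc 1 L0).filter
        (fun z => ((z.1 : ZMod G) + (z.2 : ZMod G)) = x)).card : ℝ) ≤ ((L0 / G + 1 : ℕ) : ℝ) := by
          exact_mod_cast hcard
      _ ≤ _ := by
          push_cast
          have := @Nat.cast_div_le ℝ _ _ _ L0 G
          linarith

/-- Hölder -/
lemma hoelder {G : ℕ} [NeZero G] (L0 : ℕ) (L : ℝ) (hL : (L0 : ℝ) ≤ L) (𝓜 : Finset ℤ)
    (hsep : Sep G L 𝓜) (F : ZMod G → ℝ) (hF : ∀ x, 0 ≤ F x) (m : ℕ) (hm : 1 ≤ m) :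
    (∑ M ∈ 𝓜, ∑ n ∈ Icc 1 L0, F ((M : ZMod G) + (n : ZMod G))) ^ m ≤
      ((𝓜.card : ℝ) * L0) ^ (m - 1) * (((L0 : ℝ) / G + 1) * ∑ x : ZMod G, F x ^ m) := by
  obtain ⟨j, rfl⟩ : ∃ j, m = j + 1 := ⟨m - 1, by omega⟩
  have h1 := pow_sum_div_card_le_sum_pow (s := 𝓜 ×ˢ Icc 1 L0)
    (f := fun z => F ((z.1 : ZMod G) + (z.2 : ZMod G))) (fun z _ => hF _) j
  rcases Nat.eq_zero_or_pos (𝓜 ×ˢ Icc 1 L0).card with h0 | hpos
  · rw [card_eq_zero] at h0
    rw [← sum_product' 𝓜 (Icc 1 L0) (fun M n => F ((M : ZMod G) + (n : ZMod G))), h0, sum_empty,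
      zero_pow (by omega)]
    have : 0 ≤ ∑ x : ZMod G, F x ^ (j + 1) := sum_nonneg fun x _ => pow_nonneg (hF x) _
    positivity
  rw [div_le_iff₀ (by positivity), card_product, Nat.card_Icc, Nat.add_sub_cancel] at h1
  rw [← sum_product' 𝓜 (Icc 1 L0) (fun M n => F ((M : ZMod G) + (n : ZMod G)))]
  refine h1.trans ?_
  rw [Nat.add_sub_cancel, mul_comm]
  push_cast
  apply mul_le_mul_of_nonneg_left _ (by positivity)
  rw [sum_product]
  exact cover L0 L hL 𝓜 hsep (fun x => F x ^ (j + 1)) (fun x => pow_nonneg (hF x) _)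

end Pool.Agent.Work.SC
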