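import Pool.Agent.Work.LV.MLoc

/-!
# MP_081200_nt, conductors with a smooth part: complete sums of differenced characters
-/

set_option autoImplicit false

namespace Pool.Agent.Work.SC

open Finset Polynomial Pool.Agent.Work.LV Pool.Agent.Work.LV.M

/-- multiplicity of the root `-t` modulo `p`, as a residue modulo 3 -/
def Mu {I : Type} [Fintype I] (e h : I → ℕ) (p : ℕ) (t : ZMod p) : ZMod 3 :=
  ∑ i, if (h i : ZMod p) = t then (e i : ZMod 3) else 0

lemma local_prime2 {I : Type} [Fintype I] [DecidableEq I] (e h : I → ℕ) (C : ℝ)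
    (hW : WB (∑ i, e i) C) (p : ℕ) [Fact p.Prime] (χ : DirichletCharacter ℂ p)
    (hχ : χ ^ 3 = 1) (hχ1 : χ ≠ 1) (hnd : ∃ t : ZMod p, Mu e h p t ≠ 0) :
    ‖∑ x : ZMod p, χ (RR e h x)‖ ≤ C * Real.sqrt p := by
  have hF : (RR e h (X : (ZMod p)[X])) = ∏ i, (X - Polynomial.C (-(h i : ZMod p))) ^ e i := by
    unfold RR
    apply prod_congr rfl
    intro i _
    congr 1
    rw [map_neg, sub_neg_eq_add, map_natCast]
  have h1 := hW p χ hχ hχ1 (RR e h (X : (ZMod p)[X])) ?_ ?_
  · have h2 : ∀ x : ZMod p, (RR e h (X : (ZMod p)[X])).eval x = RR e h x := by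
      intro x
      have := map_RR e h (evalRingHom x) (X : (ZMod p)[X])
      simpa using this
    simpa only [h2] using h1
  · rw [hF]
    refine (natDegree_prod_le _ _).trans ?_
    apply sum_le_sum
    intro i _
    refine natDegree_pow_le.trans ?_
    rw [natDegree_X_sub_C, mul_one]
  · obtain ⟨t, ht⟩ := hnd
    refine ⟨-t, ?_⟩
    rw [hF, rootMultiplicity_prod_aux]
    intro hdvd
    apply ht
    unfold Mu
    have h3 := (ZMod.natCast_eq_zero_iff _ 3).mpr hdvd
    refine Eq.trans ?_ h3
    push_cast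
    refine sum_congr rfl fun i _ => ?_
    have : (-(h i : ZMod p) = -t) ↔ (h i : ZMod p) = t := neg_inj
    simp only [this]

/-- The local factor. -/
noncomputable def loc2 (BadP : ℕ → Prop) (C : ℝ) (p : ℕ) : ℝ :=
  open Classical in
  (if p = 3 then 9 else 1) * (C * Real.sqrt p * (if BadP p then Real.sqrt p else 1))

lemma loc2_nonneg (BadP : ℕ → Prop) (C : ℝ) (hC : 1 ≤ C) (p : ℕ) :
    0 ≤ loc2 BadP C p := by
  unfold loc2
  have : 0 ≤ C := by linarith
  positivity

lemma G_bound2 {I : Type} [Fintype I] [DecidableEq I] (e h : I → ℕ) (C : ℝ) (hC : 1 ≤ C)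
    (hW : WB (∑ i, e i) C) (BadP : ℕ → Prop)
    (hnd : ∀ p : ℕ, p.Prime → p ≠ 3 → ¬ BadP p → ∃ t : ZMod p, Mu e h p t ≠ 0) :
    ∀ q : ℕ, ∀ _ : NeZero q, ∀ χ : DirichletCharacter ℂ q, LocPrim χ → χ ^ 3 = 1 →
      ‖∑ x : ZMod q, χ (RR e h x)‖ ≤ ∏ p ∈ q.primeFactors, loc2 BadP C p := by
  classical
  intro q
  induction q using Nat.recOnPosPrimePosCoprime with
  | prime_pow p n hp hn =>
    intro hne χ hloc hχ
    rw [Nat.primeFactors_prime_pow hn.ne' hp, prod_singleton]
    have hsq : Real.sqrt p * Real.sqrt p = p := Real.mul_self_sqrt (Nat.cast_nonneg p)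
    by_cases hp3 : p = 3
    · subst hp3
      have hn2 : n ≤ 2 := by
        by_contra h3
        exact not_locPrim_three (by omega) χ hχ hloc
      refine (trivial_bound e h _ χ).trans ?_
      have h9 : ((3 ^ n : ℕ) : ℝ) ≤ 9 := by
        interval_cases n
        · norm_num
        · norm_num
      have h4 : (1 : ℝ) ≤ C * Real.sqrt (3 : ℕ) * (if BadP 3 then Real.sqrt (3 : ℕ) else 1) := by
        have h5 : (1 : ℝ) ≤ Real.sqrt (3 : ℕ) := Real.one_le_sqrt.2 (by norm_num)
        have h6 : (1 : ℝ) ≤ C * Real.sqrt (3 : ℕ) := by nlinarith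
        split_ifs
        · nlinarith
        · linarith
      unfold loc2
      simp only [if_true]
      linarith
    · have hn1 : n = 1 := by
        by_contra h3
        exact not_locPrim_of_ne_three hp hp3 (by omega) χ hχ hloc
      subst hn1
      have : Fact p.Prime := ⟨hp⟩
      have key : ∀ m : ℕ, m = p → ∀ _ : NeZero m, ∀ χ : DirichletCharacter ℂ m, LocPrim χ →
          χ ^ 3 = 1 → ‖∑ x : ZMod m, χ (RR e h x)‖ ≤ loc2 BadP C p := by
        rintro m rfl hne χ hloc hχ
        unfold loc2
        rw [if_neg hp3, one_mul]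
        split_ifs with hb
        · refine (trivial_bound e h _ χ).trans ?_
          rw [mul_assoc, hsq]
          have : (0 : ℝ) ≤ m := Nat.cast_nonneg m
          nlinarith
        · rw [mul_one]
          refine local_prime2 e h C hW m χ hχ ?_ (hnd m hp hp3 hb)
          rintro rfl
          obtain ⟨u, -, hu⟩ := hloc m hp dvd_rfl
          exact hu (MulChar.one_apply u.isUnit)
      exact key (p ^ 1) (pow_one p) hne χ hloc hχ
  | zero => intro hne; exact absurd rfl (NeZero.ne 0)
  | one =>
    intro hne χ _ _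
    simpa using trivial_bound e h 1 χ
  | coprime a b ha hb hab iha ihb =>
    intro hne χ hloc hχ
    have hna : NeZero a := ⟨by omega⟩
    have hnb : NeZero b := ⟨by omega⟩
    rw [sum_RR_mul e h hab χ, norm_mul, hab.primeFactors_mul,
      prod_union hab.disjoint_primeFactors]
    exact mul_le_mul (iha hna _ (locPrim_chiL hab χ hloc) (chiL_pow hab χ hχ))
      (ihb hnb _ (locPrim_chiR hab χ hloc) (chiR_pow hab χ hχ)) (norm_nonneg _)
      (prod_nonneg fun p _ => loc2_nonneg BadP C hC p)

/-! ### difference operators -/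

/-- iterated differences of a function on `ZMod q` -/
noncomputable def DZ {q : ℕ} : List (ZMod q) → (ZMod q → ℂ) → (ZMod q → ℂ)
  | [], φ => φ
  | s :: l, φ => DZ l (fun x => φ (x + s) * (starRingEnd ℂ) (φ x))

lemma DZ_mul {q : ℕ} (l : List (ZMod q)) (φ ψ : ZMod q → ℂ) (x : ZMod q) :
    DZ l (fun x => φ x * ψ x) x = DZ l φ x * DZ l ψ x := by
  induction l generalizing φ ψ with
  | nil => rfl
  | cons s l ih =>
    simp only [DZ]
    rw [← ih]
    congr 1
    funext y
    rw [map_mul]; ring

lemma DZ_conj {q : ℕ} (l : List (ZMod q)) (φ : ZMod q → ℂ) (x : ZMod q) :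
    DZ l (fun x => (starRingEnd ℂ) (φ x)) x = (starRingEnd ℂ) (DZ l φ x) := by
  induction l generalizing φ with
  | nil => rfl
  | cons s l ih =>
    simp only [DZ]
    rw [← ih]
    congr 1
    funext y
    rw [map_mul]

lemma DZ_shift {q : ℕ} (l : List (ZMod q)) (φ : ZMod q → ℂ) (b x : ZMod q) :
    DZ l (fun x => φ (x + b)) x = DZ l φ (x + b) := by
  induction l generalizing φ with
  | nil => rfl
  | cons s l ih =>
    simp only [DZ]
    rw [← ih]
    congr 1
    funext y
    rw [add_right_comm]

lemma DZ_one {q : ℕ} (l : List (ZMod q)) (x : ZMod q) : DZ l (fun _ => (1 : ℂ)) x = 1 := by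
  induction l with
  | nil => rfl
  | cons s l ih => simp only [DZ, map_one, mul_one]; exact ih

lemma DZ_prod {q : ℕ} {J : Type} (l : List (ZMod q)) (s : Finset J) (φ : J → ZMod q → ℂ)
    (x : ZMod q) : DZ l (fun x => ∏ j ∈ s, φ j x) x = ∏ j ∈ s, DZ l (φ j) x := by
  classical
  induction s using Finset.induction_on with
  | empty => simp [DZ_one]
  | insert j s hj ih =>
    simp only [prod_insert hj]
    rw [DZ_mul, ih]

lemma conj_cubic' {q : ℕ} [NeZero q] (χ : DirichletCharacter ℂ q) (hχ : χ ^ 3 = 1) (y : ZMod q) :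
    (starRingEnd ℂ) (χ y) = χ y ^ 2 := by
  by_cases hy : IsUnit y
  · have h1 : χ y ^ 3 = 1 := by
      rw [← MulChar.pow_apply' _ (by norm_num), hχ, MulChar.one_apply hy]
    have h2 : ‖χ y‖ = 1 := DirichletCharacter.unit_norm_eq_one χ hy.unit
    have h3 : χ y * (starRingEnd ℂ) (χ y) = 1 := by
      rw [Complex.mul_conj, Complex.normSq_eq_norm_sq, h2]; simp
    have h4 : χ y ≠ 0 := fun h => by rw [h] at h3; simp at h3
    apply mul_left_cancel₀ h4
    rw [h3, ← h1]; ring
  · rw [MulChar.map_nonunit _ hy]; simp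

/-- non-degeneracy is preserved by a difference with a non-zero shift -/
lemma nondeg_step {p : ℕ} [Fact p.Prime] (hp3 : p ≠ 3) (D : ZMod p → ZMod 3) (s : ZMod p)
    (hs : s ≠ 0) (hsum : ∑ t, D t = 0) (hD : ∃ t, D t ≠ 0) : ∃ t, D (t - s) - D t ≠ 0 := by
  by_contra hcon
  push Not at hcon
  have h1 : ∀ (k : ℕ) (t : ZMod p), D (t - k * s) = D t := by
    intro k
    induction k with
    | zero => intro t; simp
    | succ k ih =>
      intro t
      have := hcon (t - k * s)
      rw [ih] at this
      have h2 := sub_eq_zero.mp this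
      rw [← h2]
      congr 1
      push_cast; ring
  have h2 : ∀ t, D t = D 0 := by
    intro t
    have h3 := h1 ((-t * s⁻¹ : ZMod p)).val 0
    rw [ZMod.natCast_zmod_val, mul_assoc, inv_mul_cancel₀ hs] at h3
    simpa using h3
  obtain ⟨t, ht⟩ := hD
  rw [sum_congr rfl (fun t _ => h2 t), sum_const, card_univ, ZMod.card, nsmul_eq_mul] at hsum
  have hp : ((p : ℕ) : ZMod 3) ≠ 0 := by
    intro h
    rw [ZMod.natCast_eq_zero_iff] at h
    have := (Nat.prime_dvd_prime_iff_eq Nat.prime_three (Fact.out (p := p.Prime))).mp h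
    exact hp3 this.symm
  have : Fact (Nat.Prime 3) := ⟨Nat.prime_three⟩
  rcases mul_eq_zero.mp hsum with h | h
  · exact hp h
  · exact ht (by rw [h2, h])

/-- differences of `χ ∘ RR` are again of this form -/
lemma DZ_RR {q : ℕ} [NeZero q] (χ : DirichletCharacter ℂ q) (hχ : χ ^ 3 = 1) (l : List (ZMod q)) :
    ∀ (I : Type) (_ : Fintype I) (_ : DecidableEq I) (e h : I → ℕ),
      ∃ (I' : Type) (_ : Fintype I') (_ : DecidableEq I') (e' h' : I' → ℕ),
        (∀ x : ZMod q, DZ l (fun x => χ (RR e h x)) x = χ (RR e' h' x)) ∧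
        ∑ i, e' i = 3 ^ l.length * ∑ i, e i ∧
        ∀ p : ℕ, p.Prime → p ≠ 3 → (∀ s ∈ l, ¬ p ∣ s.val) →
          (∑ i, (e i : ZMod 3)) = 0 → (∃ t : ZMod p, Mu e h p t ≠ 0) →
          ∃ t : ZMod p, Mu e' h' p t ≠ 0 := by
  induction l with
  | nil =>
    intro I _ _ e h
    exact ⟨I, inferInstance, inferInstance, e, h, fun x => rfl, by simp, fun p _ _ _ _ h => h⟩
  | cons s l ih =>
    intro I _ _ e h
    set e1 : I ⊕ I → ℕ := Sum.elim e (fun i => 2 * e i) with he1
    set h1 : I ⊕ I → ℕ := Sum.elim (fun i => h i + s.val) h with hh1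
    obtain ⟨I', f1, f2, e', h', ha, hb, hc⟩ := ih (I ⊕ I) inferInstance inferInstance e1 h1
    refine ⟨I', f1, f2, e', h', ?_, ?_, ?_⟩
    · intro x
      rw [← ha x]
      simp only [DZ]
      congr 1
      funext y
      rw [conj_cubic' χ hχ, ← map_pow, ← map_mul]
      congr 1
      unfold RR
      rw [Fintype.prod_sum_type]
      simp only [he1, hh1, Sum.elim_inl, Sum.elim_inr]
      congr 1
      · refine prod_congr rfl fun i _ => ?_
        push_cast
        rw [ZMod.natCast_zmod_val]
        ring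
      · rw [← prod_pow]
        refine prod_congr rfl fun i _ => ?_
        rw [← pow_mul, mul_comm]
    · rw [hb, Fintype.sum_sum_type]
      simp only [he1, Sum.elim_inl, Sum.elim_inr, List.length_cons]
      rw [← mul_sum, pow_succ]
      ring
    · intro p hp hp3 hs hsum hnd
      have : Fact p.Prime := ⟨hp⟩
      apply hc p hp hp3 (fun s' hs' => hs s' (by simp [hs']))
      · rw [Fintype.sum_sum_type]
        simp only [he1, Sum.elim_inl, Sum.elim_inr]
        push_cast
        rw [← mul_sum, hsum]; simp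
      · have hMu : ∀ t : ZMod p, Mu e1 h1 p t = Mu e h p (t - (s.val : ZMod p)) - Mu e h p t := by
          intro t
          unfold Mu
          rw [Fintype.sum_sum_type]
          simp only [he1, hh1, Sum.elim_inl, Sum.elim_inr]
          have e1 : ∀ i, (if ((h i + s.val : ℕ) : ZMod p) = t then (e i : ZMod 3) else 0) =
              if (h i : ZMod p) = t - (s.val : ZMod p) then (e i : ZMod 3) else 0 := by
            intro i
            have : ((h i + s.val : ℕ) : ZMod p) = t ↔ (h i : ZMod p) = t - (s.val : ZMod p) := by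
              push_cast
              exact eq_sub_iff_add_eq.symm
            simp only [this]
          rw [sum_congr rfl (fun i _ => e1 i), sub_eq_add_neg (∑ i, _) (∑ i, _)]
          congr 1
          rw [← sum_neg_distrib]
          refine sum_congr rfl fun i _ => ?_
          split_ifs
          · push_cast
            have h2 : (2 : ZMod 3) = -1 := by decide
            rw [h2]; ring
          · simp
        have hs0 : (s.val : ZMod p) ≠ 0 := by
          rw [Ne, ZMod.natCast_eq_zero_iff]
          exact hs s (by simp)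
        have hsumMu : ∑ t : ZMod p, Mu e h p t = 0 := by
          unfold Mu
          rw [sum_comm]
          refine Eq.trans (sum_congr rfl fun i _ => ?_) hsum
          rw [sum_ite_eq]
          simp
        obtain ⟨t, ht⟩ := nondeg_step hp3 (Mu e h p) _ hs0 hsumMu hnd
        exact ⟨t, by rw [hMu]; exact ht⟩

end Pool.Agent.Work.SC
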