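import Pool.Agent.Work.SC081200.Core
import Pool.Agent.Work.SC081200.Fac

/-!
# MP_081200_nt, conductors with a smooth part: primitive characters with a given factorisation
-/

set_option autoImplicit false

namespace Pool.Agent.Work.SC

open Finset Pool.Agent.Work.LV Pool.Agent.Work.LV.M

lemma half_floor (x : ℝ) (hx : 1 ≤ x) : x / 2 ≤ (⌊x⌋₊ : ℝ) := by
  have h1 := Nat.lt_floor_add_one x
  have h2 : (1 : ℝ) ≤ (⌊x⌋₊ : ℝ) := by
    exact_mod_cast (Nat.one_le_floor_iff x).2 hx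
  linarith

theorem primA (n : ℕ) (hn : 1 ≤ n) (σ η ε δ : ℝ) (k : ℕ) (hη : 0 < η) (hση : σ + 2 * η = 1 / n)
    (hσ : 0 < σ) (hε : 0 < ε) (hδ : 0 < δ) (hδ1 : δ * 2 ^ k / n ≤ η / 2)
    (hδ2 : 4 * δ * 2 ^ k ≤ ε) :
    ∃ C : ℝ, 0 ≤ C ∧ ∀ Q : ℝ, 1 ≤ Q → (2 * k + 2 : ℝ) ≤ Q ^ (η / 2) →
      ∀ (f : ℕ) (_ : NeZero f) (_ : (f : ℝ) ≤ Q) (χ : DirichletCharacter ℂ f), LocPrim χ →
      χ ^ 3 = 1 → ∀ (fs : List ℕ) (G : ℕ), prodG fs G = f → (G :: fs).Pairwise Nat.Coprime →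
      (∀ a ∈ fs, 1 ≤ a ∧ (a : ℝ) ≤ Q ^ σ) → fs.length ≤ k →
        ∀ 𝓜 : Finset ℤ, Sep G (Q ^ (1 / (n : ℝ))) 𝓜 →
          (∀ M ∈ 𝓜, ∃ N : ℕ, (N : ℝ) ≤ Q ^ (1 / (n : ℝ)) ∧
            3 * Q ^ ((1 - δ) / n) ≤ ‖shortSum χ M N‖) →
            (𝓜.card : ℝ) * Q ^ (1 / (n : ℝ)) ≤
              C * (Q ^ (3 * ε) * (Q ^ (1 / (n : ℝ)) / G + 1) * (G : ℝ) ^ (1 / 2 : ℝ)) := by
  classical
  obtain ⟨C₀, hC₀, hcore⟩ := core k (2 * n) (by omega) ε hε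
  obtain ⟨Cτ, hCτ, hτ⟩ := Pool.Agent.Work.MP_081200_nt.div_bound (ε / (k + 1)) (by positivity)
  refine ⟨C₀ * Cτ ^ k * (4 ^ n + 1), by positivity, ?_⟩
  intro Q hQ1 hQk f hfne hfQ χ hloc hcub fs G hfG hcop hfs hlen 𝓜 hsep hV
  have hn1 : (1 : ℝ) ≤ n := by exact_mod_cast hn
  have hn0 : (0 : ℝ) < n := by linarith
  have hQpos : 0 < Q := by linarith
  have hmono : ∀ a b : ℝ, a ≤ b → Q ^ a ≤ Q ^ b := fun a b h =>
    Real.rpow_le_rpow_of_exponent_le hQ1 h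
  -- `G` is non-zero and at most `Q`
  have hf0 : f ≠ 0 := NeZero.ne f
  have hG0 : G ≠ 0 := by
    intro h
    apply hf0
    rw [← hfG, prodG_eq, h, mul_zero]
  have hGne : NeZero G := ⟨hG0⟩
  have hGpos : (0 : ℝ) < G := by exact_mod_cast Nat.pos_of_ne_zero hG0
  have hG1 : (1 : ℝ) ≤ G := by exact_mod_cast Nat.one_le_iff_ne_zero.2 hG0
  have hGf : G ≤ f := by
    apply Nat.le_of_dvd (Nat.pos_of_ne_zero hf0)
    rw [← hfG, prodG_eq]
    exact Dvd.intro_left _ rfl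
  have hGQ : (G : ℝ) ≤ Q := le_trans (by exact_mod_cast hGf) hfQ
  obtain ⟨L, hL⟩ : ∃ L : ℝ, L = Q ^ (1 / (n : ℝ)) := ⟨_, rfl⟩
  have hL1 : 1 ≤ L := by
    rw [hL]
    exact Real.one_le_rpow hQ1 (by positivity)
  have hL0' : 0 < L := by linarith
  rw [← hL] at hsep ⊢
  simp only [← hL] at hV
  set L0 : ℕ := ⌊L⌋₊ with hL0
  have hL0L : (L0 : ℝ) ≤ L := Nat.floor_le (by linarith)
  have hL01 : 1 ≤ L0 := (Nat.one_le_floor_iff L).2 hL1
  obtain ⟨b, hb⟩ : ∃ b : ℝ, b = Q ^ (1 / (2 * (n : ℝ))) := ⟨_, rfl⟩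
  have hb1 : 1 ≤ b := by
    rw [hb]
    exact Real.one_le_rpow hQ1 (by positivity)
  set B : ℕ := ⌊b⌋₊ with hB
  have hBb : (B : ℝ) ≤ b := Nat.floor_le (by linarith)
  have hB1 : 1 ≤ B := (Nat.one_le_floor_iff b).2 hb1
  have hB2 : b / 2 ≤ B := half_floor b hb1
  have hB0 : (0 : ℝ) < B := by exact_mod_cast hB1
  set H : ℕ → ℕ := fun a => ⌊Q ^ (1 / (n : ℝ) - η) / a⌋₊ with hH
  have hHa : ∀ a ∈ fs, 1 ≤ H a ∧ a * H a ≤ L0 ∧ 1 / (H a : ℝ) ≤ 2 * Q ^ (-η) := by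
    intro a ha
    obtain ⟨ha1, ha2⟩ := hfs a ha
    have ha0 : (0 : ℝ) < a := by exact_mod_cast ha1
    have h1 : Q ^ η ≤ Q ^ (1 / (n : ℝ) - η) / a := by
      rw [le_div_iff₀ ha0]
      calc Q ^ η * a ≤ Q ^ η * Q ^ σ := by gcongr
        _ = Q ^ (1 / (n : ℝ) - η) := by
            rw [← Real.rpow_add hQpos]
            congr 1
            linarith
    have h2 : 1 ≤ Q ^ η := Real.one_le_rpow hQ1 hη.le
    have h3 := h2.trans h1
    refine ⟨(Nat.one_le_floor_iff _).2 h3, ?_, ?_⟩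
    · apply Nat.le_floor
      push_cast
      calc (a : ℝ) * (H a : ℝ) ≤ a * (Q ^ (1 / (n : ℝ) - η) / a) := by
            apply mul_le_mul_of_nonneg_left _ ha0.le
            exact Nat.floor_le (by linarith)
        _ = Q ^ (1 / (n : ℝ) - η) := by field_simp
        _ ≤ L := by
            rw [hL]
            exact hmono _ _ (by linarith)
    · have h4 := half_floor _ h3
      have h5 : Q ^ η / 2 ≤ (H a : ℝ) := by
        refine le_trans ?_ h4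
        linarith
      have h6 : 0 < Q ^ η := by positivity
      calc 1 / (H a : ℝ) ≤ 1 / (Q ^ η / 2) := one_div_le_one_div_of_le (by positivity) h5
        _ = 2 * Q ^ (-η) := by
            rw [Real.rpow_neg hQpos.le]
            field_simp
  set l : List (ℕ × ℕ) := fs.map (fun f => (f, H f)) with hl
  have hllen : l.length = fs.length := by rw [hl, List.length_map]
  obtain ⟨ψ, hψloc, hψcub, P, hP, hχ⟩ := split H fs G hGne (fun a ha => (hfs a ha).1) hcop f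
    hfG.symm χ hloc hcub
  obtain ⟨u, hu⟩ : ∃ u : ℝ, u = Q ^ (-(δ / n)) := ⟨_, rfl⟩
  have hu0 : 0 < u := by rw [hu]; positivity
  have hu1 : u ≤ 1 := by
    rw [hu]
    apply Real.rpow_le_one_of_one_le_of_nonpos hQ1
    have : 0 < δ / n := by positivity
    linarith
  obtain ⟨V, hVd⟩ : ∃ V : ℝ, V = 3 * Q ^ ((1 - δ) / n) := ⟨_, rfl⟩
  have hVL : V = 3 * (L * u) := by
    rw [hVd, hL, hu, ← Real.rpow_add hQpos]
    congr 2
    ring
  have hV0 : 0 ≤ V := by rw [hVL]; positivity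
  set K : ℕ := 2 ^ l.length with hK
  have hKk : K ≤ 2 ^ k := by
    rw [hK, hllen]
    exact Nat.pow_le_pow_right (by norm_num) hlen
  have hK1 : 1 ≤ K := Nat.one_le_two_pow
  obtain ⟨ρ, hρ⟩ : ∃ ρ : ℝ, ρ = Q ^ (-(δ * 2 ^ k / n)) := ⟨_, rfl⟩
  have hρ0 : 0 < ρ := by rw [hρ]; positivity
  have huK : ρ ≤ u ^ K := by
    have h1 : u ^ (2 ^ k) ≤ u ^ K := pow_le_pow_of_le_one hu0.le hu1 hKk
    refine le_trans (le_of_eq ?_) h1
    rw [hρ, hu, ← Real.rpow_natCast (Q ^ (-(δ / (n : ℝ)))), ← Real.rpow_mul hQpos.le]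
    congr 1
    push_cast
    ring
  set Y : ℝ := (2 * (L0 : ℝ)) ^ (K - 1) with hY
  have hY0 : 0 < Y := by
    have : (0 : ℝ) < L0 := by exact_mod_cast hL01
    positivity
  have hYL : 2 * Y * L ≤ 2 ^ K * L ^ K := by
    have h1 : Y ≤ (2 * L) ^ (K - 1) := by
      rw [hY]
      gcongr
    have h2 : 2 * (2 * L) ^ (K - 1) * L = 2 ^ K * L ^ K := by
      rw [← mul_pow]
      obtain ⟨j, hj⟩ : ∃ j, K = j + 1 := ⟨K - 1, by omega⟩
      rw [hj, Nat.add_sub_cancel, pow_succ]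
      ring
    rw [← h2]
    gcongr
  have hVK : 2 ^ K * L ^ K * ρ ≤ V ^ K := by
    rw [hVL, mul_pow, mul_pow]
    calc (2 : ℝ) ^ K * L ^ K * ρ ≤ 3 ^ K * L ^ K * u ^ K := by
          gcongr
          norm_num
      _ = _ := by ring
  have hS1 : (l.map fun p => 1 / (p.2 : ℝ)).sum ≤ 2 * k * Q ^ (-η) := by
    have h1 : ∀ fs : List ℕ, (∀ a ∈ fs, 1 / (H a : ℝ) ≤ 2 * Q ^ (-η)) →
        ((fs.map (fun f => (f, H f))).map fun p => 1 / (p.2 : ℝ)).sum ≤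
          fs.length * (2 * Q ^ (-η)) := by
      intro fs
      induction fs with
      | nil => intro _; simp
      | cons a fs ih =>
        intro h
        have h1 := h a (by simp)
        have h2 := ih fun b hb => h b (by simp [hb])
        simp only [List.map_cons, List.sum_cons, List.length_cons]
        push_cast
        linarith
    have h2 := h1 fs fun a ha => (hHa a ha).2.2
    refine h2.trans ?_
    have h3 : (fs.length : ℝ) ≤ k := by exact_mod_cast hlen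
    have h4 : 0 ≤ 2 * Q ^ (-η) := by positivity
    calc (fs.length : ℝ) * (2 * Q ^ (-η)) ≤ k * (2 * Q ^ (-η)) := by gcongr
      _ = _ := by ring
  have hbL : b ≤ L * Q ^ (-η) := by
    rw [hb, hL, ← Real.rpow_add hQpos]
    apply hmono
    have h1 : 1 / (2 * (n : ℝ)) = 1 / (n : ℝ) / 2 := by field_simp
    rw [h1]
    linarith
  have hE : 2 * Y * (2 * B + L0 * (l.map fun p => 1 / (p.2 : ℝ)).sum) ≤ V ^ K := by
    have h1 : 2 * (B : ℝ) + L0 * (l.map fun p => 1 / (p.2 : ℝ)).sum ≤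
        L * ((2 * k + 2) * Q ^ (-η)) := by
      have h2 : (L0 : ℝ) * (l.map fun p => 1 / (p.2 : ℝ)).sum ≤ L * (2 * k * Q ^ (-η)) := by
        calc (L0 : ℝ) * (l.map fun p => 1 / (p.2 : ℝ)).sum ≤ L0 * (2 * k * Q ^ (-η)) := by
              gcongr
          _ ≤ _ := by gcongr
      linarith
    have h3 : (2 * k + 2 : ℝ) * Q ^ (-η) ≤ ρ := by
      calc (2 * k + 2 : ℝ) * Q ^ (-η) ≤ Q ^ (η / 2) * Q ^ (-η) := by gcongr
        _ = Q ^ (-(η / 2)) := by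
            rw [← Real.rpow_add hQpos]
            congr 1
            ring
        _ ≤ ρ := by
            rw [hρ]
            apply hmono
            linarith
    calc 2 * Y * (2 * B + L0 * (l.map fun p => 1 / (p.2 : ℝ)).sum)
        ≤ 2 * Y * (L * ((2 * k + 2) * Q ^ (-η))) := by gcongr
      _ ≤ 2 * Y * (L * ρ) := by gcongr
      _ = (2 * Y * L) * ρ := by ring
      _ ≤ (2 ^ K * L ^ K) * ρ := by gcongr
      _ ≤ V ^ K := hVK
  have hX : L * ρ ≤ V ^ K / (2 * Y) := by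
    rw [le_div_iff₀ (by positivity)]
    calc L * ρ * (2 * Y) = (2 * Y * L) * ρ := by ring
      _ ≤ (2 ^ K * L ^ K) * ρ := by gcongr
      _ ≤ V ^ K := hVK
  have hmain := hcore G ψ hψloc hψcub l L0 B L V 𝓜 P (by rw [hllen]; exact hlen) (by
      intro p hp
      rw [hl, List.mem_map] at hp
      obtain ⟨a, ha, rfl⟩ := hp
      obtain ⟨h1, h2, _⟩ := hHa a ha
      exact ⟨(hfs a ha).1, h1, h2, ((List.pairwise_cons.1 hcop).1 a ha).symm⟩)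
    hL01 hB1 hL0L hsep hP hV0 (by
      intro M hM
      obtain ⟨N, hN, hS⟩ := hV M hM
      refine ⟨N, Nat.le_floor hN, ?_⟩
      rw [hVd]
      refine hS.trans (le_of_eq ?_)
      unfold shortSum
      congr 1
      exact sum_congr rfl fun a _ => hχ a) hE
  set J : ℝ := (𝓜.card : ℝ) with hJ
  have hJ0 : 0 ≤ J := Nat.cast_nonneg _
  -- the right side
  have hτk : (G.divisors.card : ℝ) ^ k ≤ Cτ ^ k * Q ^ ε := by
    have h1 := hτ G hG0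
    calc (G.divisors.card : ℝ) ^ k ≤ (Cτ * (G : ℝ) ^ (ε / (k + 1))) ^ k :=
          pow_le_pow_left₀ (Nat.cast_nonneg _) h1 k
      _ = Cτ ^ k * (G : ℝ) ^ (ε / (k + 1) * k) := by
          rw [mul_pow, ← Real.rpow_natCast ((G : ℝ) ^ (ε / (k + 1))), ← Real.rpow_mul hGpos.le]
      _ ≤ Cτ ^ k * (G : ℝ) ^ ε := by
          apply mul_le_mul_of_nonneg_left _ (by positivity)
          apply Real.rpow_le_rpow_of_exponent_le hG1
          rw [div_mul_eq_mul_div, div_le_iff₀ (by positivity)]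
          nlinarith
      _ ≤ Cτ ^ k * Q ^ ε := by
          gcongr
  have hB2n : (G : ℝ) ≤ 4 ^ n * (B : ℝ) ^ (2 * n) := by
    have h1 : b ^ (2 * n) = Q := by
      rw [hb, ← Real.rpow_natCast, ← Real.rpow_mul hQpos.le]
      have : 1 / (2 * (n : ℝ)) * ((2 * n : ℕ) : ℝ) = 1 := by
        push_cast
        field_simp
      rw [this, Real.rpow_one]
    calc (G : ℝ) ≤ b ^ (2 * n) := by rw [h1]; exact hGQ
      _ ≤ (2 * (B : ℝ)) ^ (2 * n) := by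
          apply pow_le_pow_left₀ (by linarith)
          linarith
      _ = 4 ^ n * (B : ℝ) ^ (2 * n) := by
          rw [mul_pow, pow_mul]
          norm_num
  have hG12 : 1 ≤ (G : ℝ) ^ (1 / 2 + ε) := Real.one_le_rpow hG1 (by positivity)
  have hR : (B : ℝ) ^ (2 * n) * G + (B : ℝ) ^ (2 * (2 * n)) * (G : ℝ) ^ (1 / 2 + ε) ≤
      (B : ℝ) ^ (2 * (2 * n)) * ((4 ^ n + 1) * (G : ℝ) ^ (1 / 2 + ε)) := by
    have h1 : (B : ℝ) ^ (2 * n) * G ≤ (B : ℝ) ^ (2 * (2 * n)) * (4 ^ n * (G : ℝ) ^ (1 / 2 + ε)) := by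
      calc (B : ℝ) ^ (2 * n) * G ≤ (B : ℝ) ^ (2 * n) * (4 ^ n * (B : ℝ) ^ (2 * n)) := by gcongr
        _ = (B : ℝ) ^ (2 * (2 * n)) * 4 ^ n * 1 := by
            rw [mul_comm 2 (2 * n), pow_mul _ (2 * n) 2]
            ring
        _ ≤ (B : ℝ) ^ (2 * (2 * n)) * 4 ^ n * (G : ℝ) ^ (1 / 2 + ε) := by gcongr
        _ = _ := by ring
    linarith
  have hGe : (G : ℝ) ^ (1 / 2 + ε) ≤ (G : ℝ) ^ (1 / 2 : ℝ) * Q ^ ε := by
    rw [Real.rpow_add hGpos]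
    gcongr
  have hw : (L0 : ℝ) / G + 1 ≤ L / G + 1 := by gcongr
  have hstep : J * (L * ρ) ^ (2 * (2 * n)) * (B : ℝ) ^ (2 * (2 * n)) ≤
      C₀ * (Cτ ^ k * Q ^ ε) * L ^ (2 * (2 * n) - 1) * (L / G + 1) *
        ((B : ℝ) ^ (2 * (2 * n)) * ((4 ^ n + 1) * ((G : ℝ) ^ (1 / 2 : ℝ) * Q ^ ε))) := by
    calc J * (L * ρ) ^ (2 * (2 * n)) * (B : ℝ) ^ (2 * (2 * n))
        ≤ J * (V ^ K / (2 * Y)) ^ (2 * (2 * n)) * (B : ℝ) ^ (2 * (2 * n)) := by gcongr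
      _ ≤ C₀ * (G.divisors.card : ℝ) ^ k * (L0 : ℝ) ^ (2 * (2 * n) - 1) * ((L0 : ℝ) / G + 1) *
            ((B : ℝ) ^ (2 * n) * G + (B : ℝ) ^ (2 * (2 * n)) * (G : ℝ) ^ (1 / 2 + ε)) := hmain
      _ ≤ C₀ * (Cτ ^ k * Q ^ ε) * L ^ (2 * (2 * n) - 1) * (L / G + 1) *
            ((B : ℝ) ^ (2 * (2 * n)) * ((4 ^ n + 1) * (G : ℝ) ^ (1 / 2 + ε))) := by gcongr
      _ ≤ _ := by gcongr
  have hρ4 : Q ^ (-ε) ≤ ρ ^ (2 * (2 * n)) := by
    rw [hρ, ← Real.rpow_natCast (Q ^ (-(δ * 2 ^ k / (n : ℝ)))), ← Real.rpow_mul hQpos.le]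
    apply hmono
    have : -(δ * 2 ^ k / (n : ℝ)) * ((2 * (2 * n) : ℕ) : ℝ) = -(4 * δ * 2 ^ k) := by
      push_cast
      field_simp
      ring
    rw [this]
    linarith
  -- cancel
  have hpos : 0 < L ^ (2 * (2 * n) - 1) * (B : ℝ) ^ (2 * (2 * n)) * Q ^ (-ε) := by positivity
  refine le_of_mul_le_mul_left ?_ hpos
  have hLpow : L ^ (2 * (2 * n)) = L ^ (2 * (2 * n) - 1) * L := by
    rw [← pow_succ]
    congr 1
    omega
  have hQε : Q ^ (-ε) * Q ^ (3 * ε) = Q ^ ε * Q ^ ε := by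
    rw [← Real.rpow_add hQpos, ← Real.rpow_add hQpos]
    congr 1
    ring
  calc L ^ (2 * (2 * n) - 1) * (B : ℝ) ^ (2 * (2 * n)) * Q ^ (-ε) * (J * L)
      = J * (L ^ (2 * (2 * n)) * Q ^ (-ε)) * (B : ℝ) ^ (2 * (2 * n)) := by rw [hLpow]; ring
    _ ≤ J * (L ^ (2 * (2 * n)) * ρ ^ (2 * (2 * n))) * (B : ℝ) ^ (2 * (2 * n)) := by gcongr
    _ = J * (L * ρ) ^ (2 * (2 * n)) * (B : ℝ) ^ (2 * (2 * n)) := by rw [mul_pow]
    _ ≤ _ := hstep
    _ = L ^ (2 * (2 * n) - 1) * (B : ℝ) ^ (2 * (2 * n)) * (C₀ * Cτ ^ k * (4 ^ n + 1) *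
          ((Q ^ ε * Q ^ ε) * (L / G + 1) * (G : ℝ) ^ (1 / 2 : ℝ))) := by ring
    _ = _ := by rw [← hQε]; ring

end Pool.Agent.Work.SC
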