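import Pool.Agent.Work.SC081200.Prim
import Pool.Agent.Work.MP_081200_nt.PV

/-!
# MP_081200_nt, conductors with a smooth part: primitive characters
-/

set_option autoImplicit false

namespace Pool.Agent.Work.SC

open Finset Pool.Agent.Work.LV Pool.Agent.Work.LV.M

lemma ev (A a : ℝ) (ha : 0 < a) : ∃ Q₀ : ℝ, 1 ≤ Q₀ ∧ ∀ Q : ℝ, Q₀ ≤ Q → A ≤ Q ^ a := by
  refine ⟨max 1 ((max A 0) ^ (1 / a)), le_max_left _ _, fun Q hQ => ?_⟩
  have h1 : (max A 0) ^ (1 / a) ≤ Q := (le_max_right _ _).trans hQ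
  have h0 : 0 ≤ max A 0 := le_max_right _ _
  calc A ≤ max A 0 := le_max_left _ _
    _ = ((max A 0) ^ (1 / a)) ^ a := by
        rw [← Real.rpow_mul h0, one_div_mul_cancel ha.ne', Real.rpow_one]
    _ ≤ Q ^ a := Real.rpow_le_rpow (by positivity) h1 ha.le

lemma short_le (f : ℕ) [NeZero f] (χ : DirichletCharacter ℂ f) (hχ : χ.IsPrimitive) (h1 : χ ≠ 1)
    (M : ℤ) (N : ℕ) : ‖shortSum χ M N‖ ≤ 2 * f := by
  have hf2 : 2 ≤ f := by
    by_contra hcon
    have hf1 : f = 1 := by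
      have := NeZero.ne f
      omega
    subst hf1
    exact h1 (DirichletCharacter.level_one χ)
  have h2 := Pool.Agent.Work.MP_081200_nt.pv_primitive f hf2 χ hχ (M + 1) N
  have h3 : shortSum χ M N = ∑ k ∈ range N, χ ((M + 1 + k : ℤ) : ZMod f) := by
    rw [shortSum_eq, sum_Icc_one]
    refine sum_congr rfl fun k _ => ?_
    congr 1
    push_cast
    ring
  rw [h3]
  refine h2.trans ?_
  have hf0 : (0 : ℝ) < f := by
    have : 0 < f := by omega
    exact_mod_cast this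
  have hs : 0 < Real.sqrt f := Real.sqrt_pos.2 hf0
  have hss : Real.sqrt f * Real.sqrt f = f := Real.mul_self_sqrt hf0.le
  have hlog : Real.log f ≤ 2 * (Real.sqrt f - 1) := by
    have h4 : Real.log f = 2 * Real.log (Real.sqrt f) := by
      rw [Real.log_sqrt hf0.le]; ring
    rw [h4]
    have := Real.log_le_sub_one_of_pos hs
    linarith
  nlinarith

/-- the product of the primes larger than `x` dividing `f` -/
noncomputable def rough (f : ℕ) (x : ℝ) : ℕ := open Classical in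
  ∏ p ∈ f.primeFactors.filter (fun p : ℕ => x < (p : ℝ)), p

lemma rough_pos (f : ℕ) (x : ℝ) : 0 < rough f x := by
  unfold rough
  apply prod_pos
  intro p hp
  exact (Nat.prime_of_mem_primeFactors (mem_filter.1 hp).1).pos

lemma Sep.of_dvd {g G : ℕ} {L : ℝ} {𝓜 : Finset ℤ} (h : Sep g L 𝓜) (hd : g ∣ G) : Sep G L 𝓜 := by
  intro M hM M' hM' hne k
  obtain ⟨m, rfl⟩ := hd
  have := h M hM M' hM' hne (k * m)
  have e : M - M' - k * ((g * m : ℕ) : ℤ) = M - M' - k * m * (g : ℤ) := by push_cast; ring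
  rw [e]
  exact this

theorem primB (n : ℕ) (hn : 1 ≤ n) (σ ε : ℝ) (hσ : 0 < σ) (hσn : σ < 1 / n) (hε : 0 < ε) :
    ∃ δ : ℝ, 0 < δ ∧ δ ≤ 1 / 2 ∧ δ ≤ ε ∧ ∃ c : ℝ, 0 ≤ c ∧
      ∀ Q : ℝ, 1 ≤ Q → ∀ (f : ℕ) [NeZero f], (f : ℝ) ≤ Q →
      ∀ χ : DirichletCharacter ℂ f, χ.IsPrimitive → χ ^ 3 = 1 → χ ≠ 1 →
        ∀ 𝓜 : Finset ℤ, Sep (rough f (Q ^ σ)) (Q ^ (1 / (n : ℝ))) 𝓜 →
          (∀ M ∈ 𝓜, ∃ N : ℕ, (N : ℝ) ≤ Q ^ (1 / (n : ℝ)) ∧
            3 * Q ^ ((1 - δ) / n) ≤ ‖shortSum χ M N‖) →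
            (𝓜.card : ℝ) ≤ c * ((rough f (Q ^ σ) : ℝ) ^ (1 / 2 : ℝ) * Q ^ (-(1 / (n : ℝ)) + ε)) := by
  classical
  have hn1 : (1 : ℝ) ≤ n := by exact_mod_cast hn
  have hn0 : (0 : ℝ) < n := by linarith
  obtain ⟨η, hη⟩ : ∃ η : ℝ, η = (1 / n - σ) / 2 := ⟨_, rfl⟩
  have hη0 : 0 < η := by rw [hη]; linarith
  obtain ⟨k, hk⟩ : ∃ k : ℕ, k = ⌊2 / σ⌋₊ + 2 := ⟨_, rfl⟩
  obtain ⟨ε', hε'⟩ : ∃ ε' : ℝ, ε' = min (ε / 3) (1 / (24 * n)) := ⟨_, rfl⟩
  have hε'0 : 0 < ε' := by rw [hε']; exact lt_min (by positivity) (by positivity)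
  have hε'1 : ε' ≤ ε / 3 := by rw [hε']; exact min_le_left _ _
  have hε'2 : ε' ≤ 1 / (24 * n) := by rw [hε']; exact min_le_right _ _
  obtain ⟨δ, hδ⟩ : ∃ δ : ℝ, δ = min (min (1 / 2) ε) (min (η * n / (2 * 2 ^ k)) (ε' / (4 * 2 ^ k))) :=
    ⟨_, rfl⟩
  have hδ0 : 0 < δ := by
    rw [hδ]
    exact lt_min (lt_min (by norm_num) hε) (lt_min (by positivity) (by positivity))
  have hδ1 : δ ≤ 1 / 2 := by rw [hδ]; exact (min_le_left _ _).trans (min_le_left _ _)
  have hδ2 : δ ≤ ε := by rw [hδ]; exact (min_le_left _ _).trans (min_le_right _ _)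
  have hδ3 : δ ≤ η * n / (2 * 2 ^ k) := by rw [hδ]; exact (min_le_right _ _).trans (min_le_left _ _)
  have hδ4 : δ ≤ ε' / (4 * 2 ^ k) := by rw [hδ]; exact (min_le_right _ _).trans (min_le_right _ _)
  obtain ⟨C, hC, hA⟩ := primA n hn σ η ε' δ k hη0 (by rw [hη]; ring) hσ hε'0 hδ0 (by
      rw [div_le_iff₀ hn0]
      rw [le_div_iff₀ (by positivity)] at hδ3
      linarith) (by
      rw [le_div_iff₀ (by positivity)] at hδ4
      linarith)
  obtain ⟨Q1, hQ11, hQ1⟩ := ev (2 * k + 2) (η / 2) (by positivity)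
  obtain ⟨Q2, hQ21, hQ2⟩ := ev 9 σ hσ
  obtain ⟨Q3, hQ31, hQ3⟩ := ev (2 * C + 1) (1 / (8 * n)) (by positivity)
  obtain ⟨Q0, hQ0⟩ : ∃ Q0 : ℝ, Q0 = max Q1 (max Q2 Q3) := ⟨_, rfl⟩
  have hQ01 : 1 ≤ Q0 := by rw [hQ0]; exact hQ11.trans (le_max_left _ _)
  refine ⟨δ, hδ0, hδ1, hδ2, 2 * C + 2 * Q0 ^ 2, by positivity, ?_⟩
  intro Q hQge f hfne hfQ χ hprim hcub hne1 𝓜 hsep hV
  have hQpos : 0 < Q := by linarith
  obtain ⟨g, hg⟩ : ∃ g : ℕ, g = rough f (Q ^ σ) := ⟨_, rfl⟩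
  have hgpos : 0 < g := by rw [hg]; exact rough_pos _ _
  have hgne : NeZero g := ⟨hgpos.ne'⟩
  have hg1 : (1 : ℝ) ≤ g := by exact_mod_cast hgpos
  have hg12 : 1 ≤ (g : ℝ) ^ (1 / 2 : ℝ) := Real.one_le_rpow hg1 (by norm_num)
  obtain ⟨L, hL⟩ : ∃ L : ℝ, L = Q ^ (1 / (n : ℝ)) := ⟨_, rfl⟩
  have hL1 : 1 ≤ L := by
    rw [hL]
    exact Real.one_le_rpow hQge (by positivity)
  have hLpos : 0 < L := by linarith
  rw [← hg] at hsep ⊢
  obtain ⟨J, hJ⟩ : ∃ J : ℝ, J = (𝓜.card : ℝ) := ⟨_, rfl⟩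
  rw [← hJ]
  have hQe : 1 / L ≤ Q ^ (-(1 / (n : ℝ)) + ε) := by
    calc 1 / L = Q ^ (-(1 / (n : ℝ))) := by rw [hL, Real.rpow_neg hQpos.le, one_div]
      _ ≤ _ := Real.rpow_le_rpow_of_exponent_le hQge (by linarith)
  have hgf : g ≤ f := by
    have h1 : g ∣ f := by
      refine dvd_trans ?_ (Nat.prod_primeFactors_dvd f)
      rw [hg]
      unfold rough
      exact prod_dvd_prod_of_subset _ _ _ (filter_subset _ _)
    exact Nat.le_of_dvd (Nat.pos_of_ne_zero (NeZero.ne f)) h1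
  by_cases hQs : Q < Q0
  · -- small `Q`
    have h1 := Sep.card_le (by rw [← hL]; exact hLpos) hsep
    rw [← hL, ← hJ] at h1
    have h2 : (g : ℝ) / L ≤ Q0 := by
      calc (g : ℝ) / L ≤ g := div_le_self (by positivity) hL1
        _ ≤ f := by exact_mod_cast hgf
        _ ≤ Q := hfQ
        _ ≤ Q0 := hQs.le
    have h3 : L ≤ Q0 := by
      calc L ≤ Q ^ (1 : ℝ) := by
            rw [hL]
            apply Real.rpow_le_rpow_of_exponent_le hQge
            rw [div_le_one hn0]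
            exact hn1
        _ ≤ Q0 := by rw [Real.rpow_one]; exact hQs.le
    calc J ≤ 2 * Q0 := by linarith
      _ = (2 * Q0 ^ 2) * (1 / Q0) := by field_simp
      _ ≤ (2 * C + 2 * Q0 ^ 2) * (1 * (1 / L)) := by
          rw [one_mul]
          have h4 : 1 / Q0 ≤ 1 / L := one_div_le_one_div_of_le hLpos h3
          have h5 : 0 ≤ 1 / Q0 := by positivity
          have h6 : 0 ≤ 2 * C := by positivity
          calc (2 * Q0 ^ 2) * (1 / Q0) ≤ (2 * C + 2 * Q0 ^ 2) * (1 / Q0) := by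
                apply mul_le_mul_of_nonneg_right _ h5
                linarith
            _ ≤ _ := mul_le_mul_of_nonneg_left h4 (by positivity)
      _ ≤ (2 * C + 2 * Q0 ^ 2) * ((g : ℝ) ^ (1 / 2 : ℝ) * Q ^ (-(1 / (n : ℝ)) + ε)) := by
          gcongr
  push Not at hQs
  have hq1 := hQ1 Q ((le_trans (by rw [hQ0]; exact le_max_left _ _) hQs))
  have hq2 := hQ2 Q ((le_trans (by rw [hQ0]; exact (le_max_left _ _).trans (le_max_right _ _)) hQs))
  have hq3 := hQ3 Q ((le_trans (by rw [hQ0]; exact (le_max_right _ _).trans (le_max_right _ _)) hQs))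
  have hQgt : 1 < Q := by
    rcases hQge.lt_or_eq with h | h
    · exact h
    · rw [← h, Real.one_rpow] at hq2
      norm_num at hq2
  have hmono : ∀ a b : ℝ, a ≤ b → Q ^ a ≤ Q ^ b := fun a b h =>
    Real.rpow_le_rpow_of_exponent_le hQge h
  have hloc : LocPrim χ := locPrim_of_isPrimitive χ hprim
  set z : ℕ := ⌊Q ^ σ⌋₊ with hz
  have hz9 : 9 ≤ z := Nat.le_floor (by exact_mod_cast hq2)
  have hgz : g = ∏ p ∈ f.primeFactors.filter (fun p => z < p), p := by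
    rw [hg]
    unfold rough
    apply prod_congr _ fun _ _ => rfl
    ext p
    rw [mem_filter, mem_filter, hz, Nat.floor_lt (by positivity)]
  obtain ⟨fs, hfs1, hfs2, hfs3, hfs4⟩ := factor χ hloc hcub z hz9
  rw [← hgz] at hfs1 hfs2
  have hzσ : (z : ℝ) ≤ Q ^ σ := Nat.floor_le (by positivity)
  have hlen : fs.length ≤ k := by
    by_contra hcon
    push Not at hcon
    have h1 := hfs4 (fs.length / 2) (by omega)
    have h2 : Q ^ (σ * ((fs.length / 2 : ℕ) : ℝ)) ≤ Q ^ (1 : ℝ) := by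
      rw [Real.rpow_mul hQpos.le, Real.rpow_natCast, Real.rpow_one]
      calc (Q ^ σ) ^ (fs.length / 2) ≤ ((z : ℝ) + 1) ^ (fs.length / 2) := by
            apply pow_le_pow_left₀ (by positivity)
            exact (Nat.lt_floor_add_one _).le
        _ ≤ f := by exact_mod_cast h1
        _ ≤ Q := hfQ
    rw [Real.rpow_le_rpow_left_iff hQgt] at h2
    have h3 : 2 * (fs.length / 2) ≤ ⌊2 / σ⌋₊ := by
      apply Nat.le_floor
      push_cast
      rw [le_div_iff₀ hσ]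
      linarith
    omega
  have hL4 : Q ^ (1 / (2 * (n : ℝ))) * Q ^ (1 / (2 * (n : ℝ))) = L := by
    rw [hL, ← Real.rpow_add hQpos]
    congr 1
    field_simp
    norm_num
  obtain ⟨y, hy⟩ : ∃ y : ℝ, y = Q ^ (1 / (2 * (n : ℝ))) := ⟨_, rfl⟩
  have hy0 : 0 < y := by rw [hy]; positivity
  have hyL : y * y = L := by rw [hy, hL4]
  have h3ε : Q ^ (3 * ε') ≤ Q ^ (1 / (8 * (n : ℝ))) := by
    apply hmono
    have : 1 / (8 * (n : ℝ)) = 3 * (1 / (24 * n)) := by field_simp; norm_num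
    rw [this]
    linarith
  obtain ⟨x, hx⟩ : ∃ x : ℝ, x = Q ^ (1 / (8 * (n : ℝ))) := ⟨_, rfl⟩
  have hx0 : 0 < x := by rw [hx]; positivity
  rw [← hx] at hq3 h3ε
  have hx1 : 1 ≤ x := by linarith
  have hxy : x * x * (x * x) = y := by
    rw [hx, hy, ← Real.rpow_add hQpos, ← Real.rpow_add hQpos]
    congr 1
    field_simp
    norm_num
  -- the bound for a given factorisation
  have key : ∀ (fs : List ℕ) (G : ℕ), prodG fs G = f → (G :: fs).Pairwise Nat.Coprime →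
      (∀ a ∈ fs, 1 ≤ a ∧ a ≤ z) → fs.length ≤ k → g ∣ G → y ≤ G →
      J * L ≤ L / 2 + C * (Q ^ (3 * ε') * (G : ℝ) ^ (1 / 2 : ℝ)) := by
    intro fs G h1 h2 h3 h4 h5 h6
    have h7 := hA Q hQge hq1 f hfne hfQ χ hloc hcub fs G h1 h2 (fun a ha => ⟨(h3 a ha).1,
      le_trans (by exact_mod_cast (h3 a ha).2) hzσ⟩) h4 𝓜 (Sep.of_dvd hsep h5) hV
    rw [← hL, ← hJ] at h7
    have hG0 : (0 : ℝ) < G := by linarith
    obtain ⟨s, hs⟩ : ∃ s : ℝ, s = (G : ℝ) ^ (1 / 2 : ℝ) := ⟨_, rfl⟩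
    have hs0 : 0 < s := by rw [hs]; positivity
    have hss : s * s = G := by
      rw [hs, ← Real.rpow_add hG0]; norm_num
    rw [← hs] at h7 ⊢
    -- `s ≥ x^2`
    have hsx : x * x ≤ s := by
      by_contra hcon
      push Not at hcon
      have : s * s < x * x * (x * x) := mul_lt_mul'' hcon hcon hs0.le hs0.le
      rw [hss, hxy] at this
      linarith
    have h8 : C * (Q ^ (3 * ε') * (L / G) * s) ≤ L / 2 := by
      have e1 : L / G * s = L / s := by
        rw [← hss]; field_simp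
      have e2 : C * (Q ^ (3 * ε') * (L / G) * s) = C * Q ^ (3 * ε') * (L / s) := by
        rw [← e1]; ring
      rw [e2]
      have e3 : C * Q ^ (3 * ε') ≤ s / 2 := by
        calc C * Q ^ (3 * ε') ≤ C * x := by gcongr
          _ ≤ x * x / 2 := by nlinarith
          _ ≤ s / 2 := by linarith
      calc C * Q ^ (3 * ε') * (L / s) ≤ s / 2 * (L / s) := by gcongr
        _ = L / 2 := by field_simp
    calc J * L ≤ C * (Q ^ (3 * ε') * (L / G + 1) * s) := h7
      _ = C * (Q ^ (3 * ε') * (L / G) * s) + C * (Q ^ (3 * ε') * s) := by ring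
      _ ≤ _ := by linarith
  have hbig0 : 0 ≤ (2 * C + 2 * Q0 ^ 2) * ((g : ℝ) ^ (1 / 2 : ℝ) * Q ^ (-(1 / (n : ℝ)) + ε)) := by
    positivity
  have hzero : J < 1 → J ≤ (2 * C + 2 * Q0 ^ 2) *
      ((g : ℝ) ^ (1 / 2 : ℝ) * Q ^ (-(1 / (n : ℝ)) + ε)) := by
    intro h
    have h1 : 𝓜.card < 1 := by
      rw [hJ] at h
      exact_mod_cast h
    have h2 : J = 0 := by
      rw [hJ]
      have : 𝓜.card = 0 := by omega
      rw [this]; simp
    rw [h2]; exact hbig0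
  by_cases hgy : y ≤ g
  · -- the rough part is large
    have h1 := key fs g hfs1 hfs2 hfs3 hlen dvd_rfl hgy
    by_cases hJ1 : J < 1
    · exact hzero hJ1
    push Not at hJ1
    have h2 : J * L ≤ 2 * C * (Q ^ (3 * ε') * (g : ℝ) ^ (1 / 2 : ℝ)) := by nlinarith
    have h3 : J ≤ 2 * C * (Q ^ (3 * ε') * (g : ℝ) ^ (1 / 2 : ℝ)) / L := by
      rw [le_div_iff₀ hLpos]; exact h2
    have h4 : 2 * C * (Q ^ (3 * ε') * (g : ℝ) ^ (1 / 2 : ℝ)) / L =
        2 * C * ((g : ℝ) ^ (1 / 2 : ℝ) * (Q ^ (3 * ε') * (1 / L))) := by ring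
    have h5 : Q ^ (3 * ε') * (1 / L) ≤ Q ^ (-(1 / (n : ℝ)) + ε) := by
      have : 1 / L = Q ^ (-(1 / (n : ℝ))) := by rw [hL, Real.rpow_neg hQpos.le, one_div]
      rw [this, ← Real.rpow_add hQpos]
      apply hmono
      linarith
    rw [h4] at h3
    refine h3.trans ?_
    have h6 : 0 ≤ 2 * Q0 ^ 2 := by positivity
    calc 2 * C * ((g : ℝ) ^ (1 / 2 : ℝ) * (Q ^ (3 * ε') * (1 / L)))
        ≤ 2 * C * ((g : ℝ) ^ (1 / 2 : ℝ) * Q ^ (-(1 / (n : ℝ)) + ε)) := by gcongr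
      _ ≤ _ := by
          apply mul_le_mul_of_nonneg_right _ (by positivity)
          linarith
  push Not at hgy
  apply hzero
  by_cases hfy : y ≤ f
  · -- enlarge the rough part
    obtain ⟨fs', G, e1, e2, e3, e4, e5, e6, e7⟩ := enlarge z y fs g hfs3 hfs2 hgy
      (by rw [hfs1]; exact hfy)
    have h1 := key fs' G (e1.trans hfs1) e2 e3 (e4.trans hlen) e7 e5
    have hG0 : (0 : ℝ) < G := by linarith
    obtain ⟨s, hs⟩ : ∃ s : ℝ, s = (G : ℝ) ^ (1 / 2 : ℝ) := ⟨_, rfl⟩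
    have hs0 : 0 < s := by rw [hs]; positivity
    have hss : s * s = G := by
      rw [hs, ← Real.rpow_add hG0]; norm_num
    rw [← hs] at h1
    have hzL : (z : ℝ) ≤ L := by
      refine hzσ.trans ?_
      rw [hL]
      exact hmono _ _ hσn.le
    -- `s < y * x^2`, `s^2 = G < y L = y^3`
    have hsy : s ≤ y * (x * x) := by
      by_contra hcon
      push Not at hcon
      have h2 : y * (x * x) * (y * (x * x)) < s * s := mul_lt_mul'' hcon hcon (by positivity)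
        (by positivity)
      rw [hss] at h2
      have h3 : (G : ℝ) < y * L := lt_of_lt_of_le e6 (mul_le_mul_of_nonneg_left hzL hy0.le)
      have h4 : y * (x * x) * (y * (x * x)) = y * L := by
        rw [← hyL]
        have : y * (x * x) * (y * (x * x)) = y * y * (x * x * (x * x)) := by ring
        rw [this, hxy]; ring
      linarith
    have h2 : C * (Q ^ (3 * ε') * s) < L / 2 := by
      calc C * (Q ^ (3 * ε') * s) ≤ C * (x * (y * (x * x))) := by gcongr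
        _ = (2 * C) * (x * x * x * y) / 2 := by ring
        _ < x * (x * x * x * y) / 2 := by
            have h5 : 2 * C < x := by linarith
            have h6 : 0 < x * x * x * y := by positivity
            have h7 := mul_lt_mul_of_pos_right h5 h6
            linarith
        _ = L / 2 := by
            have : x * (x * x * x * y) = x * x * (x * x) * y := by ring
            rw [this, hxy, hyL]
    by_contra hcon
    push Not at hcon
    nlinarith
  · push Not at hfy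
    by_contra hcon
    push Not at hcon
    have h1 : 𝓜.Nonempty := by
      rw [← card_pos]
      have : (0 : ℝ) < 𝓜.card := by rw [← hJ]; linarith
      exact_mod_cast this
    obtain ⟨M, hM⟩ := h1
    obtain ⟨N, hN, hS⟩ := hV M hM
    have h2 := short_le f χ hprim hne1 M N
    have h3 : y ≤ Q ^ ((1 - δ) / n) := by
      rw [hy]
      apply hmono
      have : 1 / (2 * (n : ℝ)) = (1 / 2) / n := by field_simp
      rw [this]
      apply div_le_div_of_nonneg_right _ hn0.le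
      linarith
    linarith

end Pool.Agent.Work.SC
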